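import Mathlib

/-! Averages over all subsets of a finite set, and the bounds for binomial coefficients. -/

set_option autoImplicit false
set_option linter.unusedSectionVars false

namespace Pool.Agent.U140.IR

open Finset

section av

variable {ι : Type*} [DecidableEq ι]

/-- the average of `f` over all subsets of `E` -/
noncomputable def av (E : Finset ι) (f : Finset ι → ℝ) : ℝ :=
  (∑ H ∈ E.powerset, f H) / 2 ^ E.card

lemma av_congr {E : Finset ι} {f g : Finset ι → ℝ} (h : ∀ H ⊆ E, f H = g H) :
    av E f = av E g := by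
  unfold av
  rw [sum_congr rfl fun H hH => h H (mem_powerset.mp hH)]

lemma av_mono {E : Finset ι} {f g : Finset ι → ℝ} (h : ∀ H ⊆ E, f H ≤ g H) :
    av E f ≤ av E g := by
  unfold av
  exact div_le_div_of_nonneg_right (sum_le_sum fun H hH => h H (mem_powerset.mp hH))
    (by positivity)

lemma av_nonneg {E : Finset ι} {f : Finset ι → ℝ} (h : ∀ H ⊆ E, 0 ≤ f H) : 0 ≤ av E f := by
  unfold av
  exact div_nonneg (sum_nonneg fun H hH => h H (mem_powerset.mp hH)) (by positivity)

lemma av_add (E : Finset ι) (f g : Finset ι → ℝ) :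
    av E (fun H => f H + g H) = av E f + av E g := by
  unfold av
  rw [sum_add_distrib, add_div]

lemma av_sub (E : Finset ι) (f g : Finset ι → ℝ) :
    av E (fun H => f H - g H) = av E f - av E g := by
  unfold av
  rw [sum_sub_distrib, sub_div]

lemma av_mul (E : Finset ι) (c : ℝ) (f : Finset ι → ℝ) :
    av E (fun H => c * f H) = c * av E f := by
  unfold av
  rw [← mul_sum, mul_div_assoc]

lemma av_sum {κ : Type*} (E : Finset ι) (s : Finset κ) (f : κ → Finset ι → ℝ) :
    av E (fun H => ∑ x ∈ s, f x H) = ∑ x ∈ s, av E (f x) := by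
  unfold av
  rw [sum_comm, sum_div]

lemma av_const (E : Finset ι) (c : ℝ) : av E (fun _ => c) = c := by
  unfold av
  rw [sum_const, card_powerset, nsmul_eq_mul]
  push_cast
  field_simp

lemma av_empty (f : Finset ι → ℝ) : av ∅ f = f ∅ := by
  unfold av
  simp

lemma av_insert {E : Finset ι} {e : ι} (he : e ∉ E) (f : Finset ι → ℝ) :
    av (insert e E) f = (av E f + av E (fun H => f (insert e H))) / 2 := by
  unfold av
  rw [sum_powerset_insert he, card_insert_of_notMem he, pow_succ]
  field_simp

lemma av_split {D R : Finset ι} (h : Disjoint D R) (f : Finset ι → ℝ) :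
    av (D ∪ R) f = av R (fun K => av D (fun J => f (J ∪ K))) := by
  induction D using Finset.induction_on generalizing f with
  | empty =>
    simp only [empty_union, av_empty]
  | insert e D he ih =>
    have h1 : Disjoint D R := disjoint_of_subset_left (subset_insert _ _) h
    have h2 : e ∉ D ∪ R := by
      rw [mem_union, not_or]
      exact ⟨he, disjoint_left.mp h (mem_insert_self _ _)⟩
    rw [insert_union, av_insert h2, ih h1, ih h1, ← av_add]
    rw [show (av R fun K => (av D fun J => f (J ∪ K)) + av D fun J => f (insert e (J ∪ K))) / 2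
      = (1 / 2 : ℝ) * (av R fun K => (av D fun J => f (J ∪ K)) + av D fun J => f (insert e (J ∪ K)))
      by ring]
    rw [← av_mul]
    refine av_congr fun K _ => ?_
    rw [av_insert he]
    have : ∀ J : Finset ι, insert e J ∪ K = insert e (J ∪ K) := fun J => insert_union _ _ _
    simp only [this]
    ring

lemma av_sub_split {E D : Finset ι} (hD : D ⊆ E) (f : Finset ι → ℝ) :
    av E f = av (E \ D) (fun K => av D (fun J => f (J ∪ K))) := by
  rw [← av_split disjoint_sdiff]
  rw [union_sdiff_of_subset hD]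

/-- a function which does not depend on `D` -/
lemma av_drop {E D : Finset ι} (hD : D ⊆ E) {g : Finset ι → ℝ} (hg : ∀ H, g (H \ D) = g H) :
    av E g = av (E \ D) g := by
  rw [av_sub_split hD]
  refine av_congr fun K hK => ?_
  have : ∀ J ⊆ D, g (J ∪ K) = g K := by
    intro J hJ
    rw [← hg (J ∪ K), ← hg K, union_sdiff_distrib, sdiff_eq_empty_iff_subset.mpr hJ, empty_union]
  rw [av_congr this, av_const]

/-- peeling off the coordinates in `D`, upper bound -/
lemma av_peel {E D : Finset ι} (hD : D ⊆ E) {g h : Finset ι → ℝ} {c : ℝ}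
    (hg0 : ∀ H, 0 ≤ g H) (hg : ∀ H, g (H \ D) = g H)
    (hh : ∀ K ⊆ E \ D, av D (fun J => h (J ∪ K)) ≤ c) :
    av E (fun H => g H * h H) ≤ c * av E g := by
  rw [av_drop hD hg, av_sub_split hD, ← av_mul]
  refine av_mono fun K hK => ?_
  have h1 : ∀ J ⊆ D, g (J ∪ K) * h (J ∪ K) = g K * h (J ∪ K) := by
    intro J hJ
    rw [← hg (J ∪ K), union_sdiff_distrib, sdiff_eq_empty_iff_subset.mpr hJ, empty_union, hg K]
  rw [av_congr h1, av_mul, mul_comm c]
  exact mul_le_mul_of_nonneg_left (hh K hK) (hg0 K)

/-- peeling off the coordinates in `D`, exact form -/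
lemma av_peel_eq {E D : Finset ι} (hD : D ⊆ E) {g h : Finset ι → ℝ}
    (hg : ∀ H, g (H \ D) = g H) :
    av E (fun H => g H * h H) = av (E \ D) (fun K => g K * av D (fun J => h (J ∪ K))) := by
  rw [av_sub_split hD]
  refine av_congr fun K hK => ?_
  have h1 : ∀ J ⊆ D, g (J ∪ K) * h (J ∪ K) = g K * h (J ∪ K) := by
    intro J hJ
    rw [← hg (J ∪ K), union_sdiff_distrib, sdiff_eq_empty_iff_subset.mpr hJ, empty_union, hg K]
  rw [av_congr h1, av_mul]

/-- complement -/
lemma av_compl (B : Finset ι) (f : Finset ι → ℝ) : av B f = av B (fun J => f (B \ J)) := by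
  unfold av
  congr 1
  refine sum_nbij' (fun J => B \ J) (fun J => B \ J) ?_ ?_ ?_ ?_ ?_
  · intro J _; exact mem_powerset.mpr sdiff_subset
  · intro J _; exact mem_powerset.mpr sdiff_subset
  · intro J hJ; exact Finset.sdiff_sdiff_eq_self (mem_powerset.mp hJ)
  · intro J hJ; exact Finset.sdiff_sdiff_eq_self (mem_powerset.mp hJ)
  · intro J hJ
    rw [Finset.sdiff_sdiff_eq_self (mem_powerset.mp hJ)]

/-- second moment of a signed sum -/
lemma av_sq (E : Finset ι) (s : ι → ℝ) (c : ℝ) :
    av E (fun H => (∑ e ∈ H, s e + c) ^ 2) = (c + (∑ e ∈ E, s e) / 2) ^ 2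
      + (∑ e ∈ E, s e ^ 2) / 4 := by
  induction E using Finset.induction_on generalizing c with
  | empty => simp [av_empty]
  | insert e E he ih =>
    rw [av_insert he, ih c]
    have h1 : av E (fun H => (∑ x ∈ insert e H, s x + c) ^ 2)
        = av E (fun H => (∑ x ∈ H, s x + (c + s e)) ^ 2) := by
      refine av_congr fun H hH => ?_
      rw [sum_insert (fun hc => he (hH hc))]
      ring
    rw [h1, ih, sum_insert he, sum_insert he]
    ring

lemma card_filter_card (D : Finset ι) (k : ℕ) :
    ∑ H ∈ D.powerset, (if H.card = k then (1 : ℝ) else 0) = (D.card.choose k : ℝ) := by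
  rw [sum_boole]
  norm_cast
  rw [← card_powersetCard k D, powersetCard_eq_filter]

end av

/-! ### central binomial coefficients -/

/-- `β m = max_k C(m,k) / 2^m` -/
noncomputable def bet (m : ℕ) : ℝ := (m.choose (m / 2) : ℝ) / 2 ^ m

lemma bet_nonneg (m : ℕ) : 0 ≤ bet m := by unfold bet; positivity

section av2

variable {ι : Type*} [DecidableEq ι]

open Classical in
lemma av_card_le (D : Finset ι) (a c : ℕ) :
    av D (fun J => if J.card + a = c then 1 else 0) ≤ bet D.card := by
  unfold av bet
  refine div_le_div_of_nonneg_right ?_ (by positivity)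
  by_cases h : a ≤ c
  · have h1 : ∀ J : Finset ι, (if J.card + a = c then (1 : ℝ) else 0)
        = if J.card = c - a then 1 else 0 := by
      intro J
      refine if_congr ?_ rfl rfl
      omega
    simp only [h1]
    have h2 := card_filter_card D (c - a)
    have h3 : ∑ H ∈ D.powerset, (if H.card = c - a then (1 : ℝ) else 0)
        = (D.card.choose (c - a) : ℝ) := by
      rw [← h2]
    rw [h3]
    exact_mod_cast Nat.choose_le_middle _ _
  · have h1 : ∀ J ∈ D.powerset, (if J.card + a = c then (1 : ℝ) else 0) = 0 := by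
      intro J _
      rw [if_neg]; omega
    rw [sum_eq_zero h1]
    positivity

open Classical in
lemma av_card_eq (D : Finset ι) (a c k : ℕ) (h : k + a = c) :
    av D (fun J => if J.card + a = c then 1 else 0) = (D.card.choose k : ℝ) / 2 ^ D.card := by
  unfold av
  congr 1
  have h1 : ∀ J : Finset ι, (if J.card + a = c then (1 : ℝ) else 0)
      = if J.card = k then 1 else 0 := by
    intro J
    refine if_congr ?_ rfl rfl
    omega
  simp only [h1]
  rw [← card_filter_card D k]

open Classical in
/-- the difference of two binomial counts -/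
lemma av_two {A B : Finset ι} (hAB : Disjoint A B) (a b : ℕ) :
    av (A ∪ B) (fun J => if (J ∩ A).card + a = (J ∩ B).card + b then 1 else 0)
      = av (A ∪ B) (fun J => if J.card + a = B.card + b then 1 else 0) := by
  rw [av_split hAB, av_split hAB, av_compl B]
  refine av_congr fun K hK => ?_
  refine av_congr fun J hJ => ?_
  have hJB : Disjoint J B := disjoint_of_subset_left hJ hAB
  have hKA : Disjoint K A := disjoint_of_subset_left hK hAB.symm
  have h1 : (J ∪ B \ K) ∩ A = J := by
    ext x
    simp only [mem_inter, mem_union, mem_sdiff]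
    constructor
    · rintro ⟨h | h, hA⟩
      · exact h
      · exact absurd h.1 (disjoint_left.mp hAB hA)
    · intro h
      exact ⟨Or.inl h, hJ h⟩
  have h2 : (J ∪ B \ K) ∩ B = B \ K := by
    ext x
    simp only [mem_inter, mem_union, mem_sdiff]
    constructor
    · rintro ⟨h | h, hB⟩
      · exact absurd hB (disjoint_left.mp hJB h)
      · exact h
    · intro h
      exact ⟨Or.inr h, h.1⟩
  have h3 : (J ∪ K).card = J.card + K.card :=
    card_union_of_disjoint (disjoint_of_subset_right hK hJB)
  have h4 : (B \ K).card = B.card - K.card := card_sdiff_of_subset hK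
  have h5 : K.card ≤ B.card := card_le_card hK
  rw [h1, h2, h3, h4]
  refine if_congr ?_ rfl rfl
  omega

open Classical in
lemma av_two_le {A B : Finset ι} (hAB : Disjoint A B) {N : ℕ} (hA : A.card = N) (hB : B.card = N)
    (a b : ℕ) :
    av (A ∪ B) (fun J => if (J ∩ A).card + a = (J ∩ B).card + b then 1 else 0) ≤ bet (2 * N) := by
  rw [av_two hAB]
  refine (av_card_le _ _ _).trans (le_of_eq ?_)
  rw [card_union_of_disjoint hAB, hA, hB]
  congr 1; ring

end av2

/-- `C(2N,N+t) ≥ C(2N,N) (1 - t²/N)` -/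
lemma choose_near (N : ℕ) (hN : 0 < N) (t : ℕ) :
    ((2 * N).choose N : ℝ) * (1 - (t : ℝ) ^ 2 / N) ≤ ((2 * N).choose (N + t) : ℝ) := by
  have hN' : (0 : ℝ) < N := by exact_mod_cast hN
  induction t with
  | zero => simp
  | succ t ih =>
    have h1 : ((2 * N).choose (N + t + 1) : ℝ) * ((N : ℝ) + t + 1)
        = ((2 * N).choose (N + t) : ℝ) * ((N : ℝ) - t) := by
      rcases Nat.lt_or_ge N t with h | h
      · rw [Nat.choose_eq_zero_of_lt (by omega), Nat.choose_eq_zero_of_lt (by omega)]
        simp
      · have h2 := Nat.choose_succ_right_eq (2 * N) (N + t)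
        have h3 : 2 * N - (N + t) = N - t := by omega
        rw [h3] at h2
        have h4 : (((2 * N).choose (N + t + 1) * (N + t + 1) : ℕ) : ℝ)
            = (((2 * N).choose (N + t) * (N - t) : ℕ) : ℝ) := by rw [h2]
        push_cast [Nat.cast_sub h] at h4
        linarith
    have h5 : ((2 * N).choose (N + t) : ℝ) ≤ ((2 * N).choose N : ℝ) := by
      have := Nat.choose_le_middle (N + t) (2 * N)
      rw [Nat.mul_div_cancel_left N (by norm_num)] at this
      exact_mod_cast this
    have h6 : (0 : ℝ) ≤ ((2 * N).choose (N + t) : ℝ) := by positivity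
    have h7 : ((2 * N).choose (N + t + 1) : ℝ)
        = ((2 * N).choose (N + t) : ℝ) * ((N : ℝ) - t) / ((N : ℝ) + t + 1) := by
      rw [eq_div_iff (by positivity)]
      exact h1
    have h8 : ((2 * N).choose (N + t) : ℝ) - ((2 * N).choose N : ℝ) * ((2 * t + 1) / N)
        ≤ ((2 * N).choose (N + t + 1) : ℝ) := by
      rw [h7]
      have h9 : ((2 * N).choose (N + t) : ℝ) * ((N : ℝ) - t) / ((N : ℝ) + t + 1)
          = ((2 * N).choose (N + t) : ℝ) - ((2 * N).choose (N + t) : ℝ) * ((2 * t + 1)
            / ((N : ℝ) + t + 1)) := by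
        field_simp
        ring
      rw [h9]
      have h10 : ((2 * N).choose (N + t) : ℝ) * ((2 * t + 1) / ((N : ℝ) + t + 1))
          ≤ ((2 * N).choose N : ℝ) * ((2 * t + 1) / N) := by
        refine mul_le_mul h5 ?_ (by positivity) (by positivity)
        exact div_le_div_of_nonneg_left (by positivity) hN' (by linarith [Nat.cast_nonneg (α := ℝ) t])
      linarith
    have h11 : ((2 * N).choose N : ℝ) * (1 - ((t + 1 : ℕ) : ℝ) ^ 2 / N)
        = ((2 * N).choose N : ℝ) * (1 - (t : ℝ) ^ 2 / N)
          - ((2 * N).choose N : ℝ) * ((2 * t + 1) / N) := by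
      push_cast
      field_simp
      ring
    rw [h11]
    have e : N + (t + 1) = N + t + 1 := by ring
    rw [e]
    linarith

lemma bet_two (N : ℕ) : bet (2 * N) = ((2 * N).choose N : ℝ) / 4 ^ N := by
  unfold bet
  rw [Nat.mul_div_cancel_left N (by norm_num), pow_mul]
  norm_num

lemma bet_two_succ (N : ℕ) :
    bet (2 * (N + 1)) * (2 * N + 2) = bet (2 * N) * (2 * N + 1) := by
  rw [bet_two, bet_two]
  have h := Nat.succ_mul_centralBinom_succ N
  rw [Nat.centralBinom_eq_two_mul_choose, Nat.centralBinom_eq_two_mul_choose] at h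
  have h2 : ((N + 1 : ℕ) : ℝ) * ((2 * (N + 1)).choose (N + 1) : ℝ)
      = 2 * (2 * N + 1) * ((2 * N).choose N : ℝ) := by exact_mod_cast h
  rw [pow_succ]
  push_cast at h2
  field_simp
  linarith

lemma bet_two_sq_le (N : ℕ) : bet (2 * N) ^ 2 * (3 * N + 1) ≤ 1 := by
  induction N with
  | zero => simp [bet]
  | succ N ih =>
    have h := bet_two_succ N
    have h1 : bet (2 * (N + 1)) = bet (2 * N) * (2 * N + 1) / (2 * N + 2) := by
      rw [eq_div_iff (by positivity)]; exact h
    rw [h1]
    have h2 : (bet (2 * N) * (2 * N + 1) / (2 * N + 2)) ^ 2 * (3 * ((N + 1 : ℕ) : ℝ) + 1)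
        = bet (2 * N) ^ 2 * (((2 * N + 1) ^ 2 * (3 * N + 4)) / (2 * N + 2) ^ 2) := by
      push_cast
      field_simp
      ring
    rw [h2]
    have h3 : (((2 * N + 1) ^ 2 * (3 * N + 4)) / (2 * N + 2) ^ 2 : ℝ) ≤ 3 * N + 1 := by
      rw [div_le_iff₀ (by positivity)]
      nlinarith [Nat.cast_nonneg (α := ℝ) N]
    calc bet (2 * N) ^ 2 * (((2 * N + 1) ^ 2 * (3 * N + 4)) / (2 * N + 2) ^ 2)
        ≤ bet (2 * N) ^ 2 * (3 * N + 1) := mul_le_mul_of_nonneg_left h3 (by positivity)
      _ ≤ 1 := ih

/-- `b_N² N` is nondecreasing -/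
lemma bet_mono_aux (N k : ℕ) :
    bet (2 * N) ^ 2 * N ≤ bet (2 * (N + k)) ^ 2 * ((N + k : ℕ) : ℝ) := by
  induction k with
  | zero => simp
  | succ k ih =>
    refine ih.trans ?_
    set m := N + k with hm
    have h := bet_two_succ m
    have h1 : bet (2 * (m + 1)) = bet (2 * m) * (2 * m + 1) / (2 * m + 2) := by
      rw [eq_div_iff (by positivity)]; exact h
    have e : N + (k + 1) = m + 1 := by rw [hm]; ring
    rw [e, h1]
    have h2 : (bet (2 * m) * (2 * m + 1) / (2 * m + 2)) ^ 2 * ((m + 1 : ℕ) : ℝ)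
        = bet (2 * m) ^ 2 * (((2 * m + 1) ^ 2 * (m + 1)) / (2 * m + 2) ^ 2) := by
      push_cast
      field_simp
    rw [h2]
    refine mul_le_mul_of_nonneg_left ?_ (by positivity)
    rw [le_div_iff₀ (by positivity)]
    nlinarith [Nat.cast_nonneg (α := ℝ) m]

lemma bet_ratio {N M : ℕ} (h : N ≤ M) : bet (2 * N) ^ 2 * N ≤ bet (2 * M) ^ 2 * M := by
  obtain ⟨k, rfl⟩ := Nat.exists_eq_add_of_le h
  exact bet_mono_aux N k

lemma bet_anti {N M : ℕ} (h : N ≤ M) : bet (2 * M) ≤ bet (2 * N) := by
  obtain ⟨k, rfl⟩ := Nat.exists_eq_add_of_le h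
  induction k with
  | zero => simp
  | succ k ih =>
    refine le_trans ?_ (ih (by omega))
    set m := N + k with hm
    have h := bet_two_succ m
    have h1 : bet (2 * (m + 1)) = bet (2 * m) * (2 * m + 1) / (2 * m + 2) := by
      rw [eq_div_iff (by positivity)]; exact h
    have e : N + (k + 1) = m + 1 := by rw [hm]; ring
    rw [e, h1, div_le_iff₀ (by positivity)]
    exact mul_le_mul_of_nonneg_left (by linarith) (bet_nonneg _)

lemma bet_lower {M : ℕ} (hM : 1 ≤ M) : 1 / 4 ≤ bet (2 * M) ^ 2 * M := by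
  have h := bet_ratio hM
  refine le_trans ?_ h
  unfold bet
  norm_num

/-- rough bound -/
lemma bet_sq_le (m : ℕ) : bet m ^ 2 ≤ 1 / (m + 1) := by
  rcases Nat.even_or_odd' m with ⟨N, rfl | rfl⟩
  · rw [le_div_iff₀ (by positivity)]
    refine le_trans ?_ (bet_two_sq_le N)
    refine mul_le_mul_of_nonneg_left ?_ (by positivity)
    push_cast
    linarith [Nat.cast_nonneg (α := ℝ) N]
  · have h1 : bet (2 * N + 1) = bet (2 * (N + 1)) := by
      have e1 : (2 * N + 1) / 2 = N := by omega
      have e2 : 2 * (N + 1) / 2 = N + 1 := by omega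
      unfold bet
      rw [e1, e2]
      have h2 : (2 * (N + 1)).choose (N + 1) = 2 * (2 * N + 1).choose N := by
        have h3 : 2 * (N + 1) = (2 * N + 1) + 1 := by ring
        rw [h3, Nat.choose_succ_succ]
        have h4 : (2 * N + 1).choose (N + 1) = (2 * N + 1).choose N := by
          rw [← Nat.choose_symm_half]
        rw [h4]; ring
      rw [h2]
      have h5 : (2 : ℝ) ^ (2 * (N + 1)) = 2 * 2 ^ (2 * N + 1) := by ring
      rw [h5]
      push_cast
      field_simp
    rw [h1, le_div_iff₀ (by positivity)]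
    refine le_trans ?_ (bet_two_sq_le (N + 1))
    refine mul_le_mul_of_nonneg_left ?_ (by positivity)
    push_cast
    linarith [Nat.cast_nonneg (α := ℝ) N]

end Pool.Agent.U140.IR
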