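import Pool.Agent.U140.IR.Pairs

/-! Second moment: random 3- and 4-uniform hypergraphs have two vertices of the same degree. -/

set_option autoImplicit false
set_option linter.unusedSectionVars false

namespace Pool.Agent.U140.IR

open Finset Filter Topology

/-- number of pairs of vertices of equal degree -/
noncomputable def X {n : ℕ} (H : Finset (Finset (Fin n))) : ℝ := ∑ p ∈ PP n, Ip p H

lemma av_X (k n : ℕ) :
    av (EE n (k + 1)) X = (PP n).card * bet (2 * (n - 2).choose k) := by
  unfold X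
  rw [av_sum, sum_congr rfl fun p hp => av_Ip k hp, sum_const, nsmul_eq_mul]

lemma av_X_sq (k n : ℕ) :
    av (EE n (k + 1)) (fun H => X H ^ 2) ≤ (PP n).card * (bet (2 * (n - 2).choose k)
      + 4 * n * rr ((n - 3).choose k) ^ 2 + (PP n).card * bet (2 * (n - 4).choose k) ^ 2) := by
  have h1 : (fun H : Finset (Finset (Fin n)) => X H ^ 2)
      = fun H => ∑ p ∈ PP n, ∑ q ∈ PP n, Ip p H * Ip q H := by
    funext H
    unfold X
    rw [sq, sum_mul_sum]
  rw [h1, av_sum]
  simp only [av_sum]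
  rw [← nsmul_eq_mul ((PP n).card), ← sum_const]
  refine sum_le_sum fun p hp => ?_
  have h2 : ∀ q ∈ PP n, av (EE n (k + 1)) (fun H => Ip p H * Ip q H) ≤
      (if q = p then bet (2 * (n - 2).choose k) else 0)
      + (if share p q then rr ((n - 3).choose k) ^ 2 else 0)
      + bet (2 * (n - 4).choose k) ^ 2 := by
    intro q hq
    have n1 := bet_nonneg (2 * (n - 2).choose k)
    have n2 := sq_nonneg (rr ((n - 3).choose k))
    have n3 := sq_nonneg (bet (2 * (n - 4).choose k))
    by_cases hqp : q = p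
    · rw [if_pos hqp, hqp]
      have : (fun H : Finset (Finset (Fin n)) => Ip p H * Ip p H) = Ip p := by
        funext H; exact I_sq _ _ _
      rw [this, av_Ip k hp]
      split_ifs <;> linarith
    · rw [if_neg hqp]
      by_cases hs : share p q
      · rw [if_pos hs]
        have := av_share k hp hq (fun h => hqp h.symm) hs
        linarith
      · rw [if_neg hs]
        have := av_disj k hp hq hs
        linarith
  refine (sum_le_sum h2).trans ?_
  rw [sum_add_distrib, sum_add_distrib, sum_ite_eq' (PP n) p, if_pos hp, ← sum_filter,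
    sum_const, sum_const, nsmul_eq_mul, nsmul_eq_mul]
  have h3 : (((PP n).filter (share p)).card : ℝ) ≤ 4 * n := by exact_mod_cast card_share p
  have h4 := mul_le_mul_of_nonneg_right h3 (sq_nonneg (rr ((n - 3).choose k)))
  linarith

open Classical in
/-- the indicator of irregularity -/
noncomputable def Z {n : ℕ} (H : Finset (Finset (Fin n))) : ℝ :=
  if Function.Injective (deg H) then 1 else 0

lemma X_of_irr {n : ℕ} {H : Finset (Finset (Fin n))} (h : Function.Injective (deg H)) :
    X H = 0 := by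
  unfold X
  refine sum_eq_zero fun p hp => ?_
  rw [mem_PP] at hp
  unfold Ip I
  rw [if_neg]
  intro hc
  exact hp.ne (h hc)

lemma Z_nonneg {n : ℕ} (H : Finset (Finset (Fin n))) : 0 ≤ Z H := by
  unfold Z; split_ifs <;> norm_num

lemma second (k n : ℕ) :
    ((PP n).card * bet (2 * (n - 2).choose k)) ^ 2 * av (EE n (k + 1)) Z ≤
      (PP n).card * (bet (2 * (n - 2).choose k) + 4 * n * rr ((n - 3).choose k) ^ 2)
      + (PP n).card ^ 2 * (bet (2 * (n - 4).choose k) ^ 2 - bet (2 * (n - 2).choose k) ^ 2) := by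
  set μ : ℝ := (PP n).card * bet (2 * (n - 2).choose k) with hμ
  have h1 : μ ^ 2 * av (EE n (k + 1)) Z ≤ av (EE n (k + 1)) (fun H => (X H - μ) ^ 2) := by
    rw [← av_mul]
    refine av_mono fun H _ => ?_
    unfold Z
    split_ifs with h
    · rw [X_of_irr h]
      apply le_of_eq; ring
    · rw [mul_zero]; positivity
  have h2 : av (EE n (k + 1)) (fun H => (X H - μ) ^ 2)
      = av (EE n (k + 1)) (fun H => X H ^ 2) - μ ^ 2 := by
    have e : (fun H : Finset (Finset (Fin n)) => (X H - μ) ^ 2)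
        = fun H => (X H ^ 2 - (2 * μ) * X H) + μ ^ 2 := by
      funext H; ring
    rw [e, av_add, av_sub, av_mul, av_const]
    have := av_X k n
    rw [show av (EE n (k + 1)) (fun H => X H) = av (EE n (k + 1)) X from rfl, this, ← hμ]
    ring
  have h3 := av_X_sq k n
  rw [h2] at h1
  refine h1.trans ?_
  have h4 : μ ^ 2 = (PP n).card ^ 2 * bet (2 * (n - 2).choose k) ^ 2 := by rw [hμ]; ring
  rw [h4]
  nlinarith [h3]

lemma Z_bound (k n : ℕ) (hn : k + 4 ≤ n) :
    av (EE n (k + 1)) Z ≤ Real.sqrt (4 * ((n - 2).choose k : ℝ) / ((PP n).card : ℝ) ^ 2)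
      + 16 * (((n - 2).choose k : ℝ) / ((n - 3).choose k : ℝ)) * ((n : ℝ) / (PP n).card)
      + (((n - 2).choose k : ℝ) / ((n - 4).choose k : ℝ) - 1) := by
  set M : ℕ := (n - 2).choose k with hM
  set N3 : ℕ := (n - 3).choose k with hN3
  set N : ℕ := (n - 4).choose k with hN
  set b := bet (2 * M) with hb
  have hM1 : 1 ≤ M := Nat.choose_pos (by omega)
  have hN31 : 1 ≤ N3 := Nat.choose_pos (by omega)
  have hN1 : 1 ≤ N := Nat.choose_pos (by omega)
  have hNM : N ≤ M := Nat.choose_le_choose k (by omega)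
  have hMr : (0 : ℝ) < M := by exact_mod_cast hM1
  have hN3r : (0 : ℝ) < N3 := by exact_mod_cast hN31
  have hNr : (0 : ℝ) < N := by exact_mod_cast hN1
  have hlow : 1 / 4 ≤ b ^ 2 * M := bet_lower hM1
  have hb0 : 0 ≤ b := bet_nonneg _
  have hb1 : 0 < b ^ 2 := by
    by_contra hc
    have : b ^ 2 * M ≤ 0 := mul_nonpos_of_nonpos_of_nonneg (not_lt.mp hc) hMr.le
    linarith
  have hb2 : 0 < b := by
    rcases hb0.lt_or_eq with h | h
    · exact h
    · rw [← h] at hb1; norm_num at hb1
  set P : ℝ := ((PP n).card : ℝ) with hP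
  have hP0 : 0 < P := by
    rw [hP, card_PP_real]
    have : (2 : ℝ) ≤ n := by exact_mod_cast (by omega : 2 ≤ n)
    nlinarith
  have h1 := second k n
  rw [← hM, ← hN3, ← hN, ← hb, ← hP] at h1
  have hμ : 0 < (P * b) ^ 2 := by positivity
  have h2 : av (EE n (k + 1)) Z ≤ (P * (b + 4 * n * rr N3 ^ 2)
      + P ^ 2 * (bet (2 * N) ^ 2 - b ^ 2)) / (P * b) ^ 2 := by
    rw [le_div_iff₀ hμ, mul_comm]
    exact h1
  refine h2.trans ?_
  have h3 : (P * (b + 4 * n * rr N3 ^ 2) + P ^ 2 * (bet (2 * N) ^ 2 - b ^ 2)) / (P * b) ^ 2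
      = 1 / (P * b) + (4 * n * rr N3 ^ 2) / (P * b ^ 2) + (bet (2 * N) ^ 2 / b ^ 2 - 1) := by
    field_simp
  rw [h3]
  have hinv : 1 / b ^ 2 ≤ 4 * M := by
    rw [div_le_iff₀ hb1]
    nlinarith
  have t1 : 1 / (P * b) ≤ Real.sqrt (4 * (M : ℝ) / P ^ 2) := by
    apply Real.le_sqrt_of_sq_le
    have e : (1 / (P * b)) ^ 2 = (1 / b ^ 2) / P ^ 2 := by field_simp
    rw [e]
    exact div_le_div_of_nonneg_right hinv (by positivity)
  have t2 : (4 * n * rr N3 ^ 2) / (P * b ^ 2) ≤ 16 * ((M : ℝ) / N3) * ((n : ℝ) / P) := by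
    have e : (4 * n * rr N3 ^ 2) / (P * b ^ 2) = (4 * n * rr N3 ^ 2 / P) * (1 / b ^ 2) := by
      field_simp
    rw [e, rr_sq]
    have e2 : 1 / ((N3 : ℝ) + 1) ≤ 1 / N3 := one_div_le_one_div_of_le hN3r (by linarith)
    calc 4 * (n : ℝ) * (1 / ((N3 : ℝ) + 1)) / P * (1 / b ^ 2)
        ≤ 4 * (n : ℝ) * (1 / (N3 : ℝ)) / P * (4 * M) := by
          refine mul_le_mul ?_ hinv (by positivity) (by positivity)
          refine div_le_div_of_nonneg_right ?_ hP0.le
          exact mul_le_mul_of_nonneg_left e2 (by positivity)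
      _ = 16 * ((M : ℝ) / N3) * ((n : ℝ) / P) := by field_simp; ring
  have t3 : bet (2 * N) ^ 2 / b ^ 2 ≤ (M : ℝ) / N := by
    rw [div_le_div_iff₀ hb1 hNr]
    have := bet_ratio hNM
    rw [← hb] at this
    linarith
  linarith

lemma Z_tendsto (k : ℕ) (hk : k < 4) :
    Tendsto (fun n : ℕ => av (EE n (k + 1)) Z) atTop (𝓝 0) := by
  have a1 : Tendsto (fun n : ℕ => 4 * ((n - 2).choose k : ℝ) / ((PP n).card : ℝ) ^ 2) atTop
      (𝓝 0) := by
    have h1 := lim_choose 2 k
    have h2 := lim_PP.pow 2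
    have h3 : Tendsto (fun n : ℕ => (1 : ℝ) / (n : ℝ) ^ (4 - k)) atTop (𝓝 0) := by
      have : Tendsto (fun n : ℕ => ((n : ℝ)) ^ (4 - k)) atTop atTop :=
        (tendsto_pow_atTop (by omega)).comp tendsto_natCast_atTop_atTop
      exact this.inv_tendsto_atTop.congr (fun n => by simp)
    have h4 := ((h1.div h2 (by norm_num)).mul h3).const_mul 4
    rw [mul_zero, mul_zero] at h4
    refine h4.congr' ?_
    filter_upwards [eventually_ge_atTop 2] with n hn
    have hn0 : (n : ℝ) ≠ 0 := by
      have : 0 < n := by omega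
      positivity
    have hP0 : ((PP n).card : ℝ) ≠ 0 := by
      rw [card_PP_real]
      have : (2 : ℝ) ≤ n := by exact_mod_cast hn
      have : (0 : ℝ) < ((n : ℝ) ^ 2 - n) / 2 := by nlinarith
      exact this.ne'
    have e : (n : ℝ) ^ 4 = (n : ℝ) ^ k * (n : ℝ) ^ (4 - k) := by
      rw [← pow_add]; congr 1; omega
    simp only [Pi.div_apply]
    rw [div_pow, ← pow_mul]
    norm_num
    rw [e]
    field_simp
  have a2 : Tendsto (fun n : ℕ => Real.sqrt (4 * ((n - 2).choose k : ℝ) / ((PP n).card : ℝ) ^ 2))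
      atTop (𝓝 0) := by
    have := (Real.continuous_sqrt.tendsto 0).comp a1
    rwa [Real.sqrt_zero] at this
  have a3 : Tendsto (fun n : ℕ => (n : ℝ) / (PP n).card) atTop (𝓝 0) := by
    have h3 : Tendsto (fun n : ℕ => (1 : ℝ) / (n : ℝ)) atTop (𝓝 0) := tendsto_one_div_atTop_nhds_zero_nat
    have h4 := h3.div lim_PP (by norm_num)
    rw [zero_div] at h4
    refine h4.congr' ?_
    filter_upwards [eventually_ge_atTop 2] with n hn
    have hn0 : (n : ℝ) ≠ 0 := by
      have : 0 < n := by omega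
      positivity
    have hP0 : ((PP n).card : ℝ) ≠ 0 := by
      rw [card_PP_real]
      have : (2 : ℝ) ≤ n := by exact_mod_cast hn
      have : (0 : ℝ) < ((n : ℝ) ^ 2 - n) / 2 := by nlinarith
      exact this.ne'
    simp only [Pi.div_apply]
    field_simp
  have a4 := ((lim_ratio 2 3 k).const_mul 16).mul a3
  rw [mul_zero] at a4
  have a5 := (lim_ratio 2 4 k).sub_const 1
  rw [sub_self] at a5
  have a6 := (a2.add a4).add a5
  rw [add_zero, add_zero] at a6
  refine tendsto_of_tendsto_of_tendsto_of_le_of_le' tendsto_const_nhds a6 ?_ ?_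
  · exact Eventually.of_forall fun n => av_nonneg fun H _ => Z_nonneg H
  · filter_upwards [eventually_ge_atTop (k + 4)] with n hn
    exact Z_bound k n hn

open Classical in
lemma av_ind {n : ℕ} (E : Finset (Finset (Fin n))) (Q : Finset (Finset (Fin n)) → Prop) :
    av E (fun H => if Q H then 1 else 0) = ((E.powerset.filter Q).card : ℝ) / 2 ^ E.card := by
  unfold av
  rw [sum_boole]

open Classical in
/-- For `r = 3` and `r = 4` almost all `r`-uniform hypergraphs have two vertices of the same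
degree. -/
theorem main34 (r : ℕ) (hr : r = 3 ∨ r = 4) :
    Tendsto (fun n : ℕ => (((EE n r).powerset.filter (fun H => ∃ v w : Fin n, v ≠ w ∧
      deg H v = deg H w)).card : ℝ) / ((EE n r).powerset.card : ℝ)) atTop (𝓝 1) := by
  obtain ⟨k, hk, rfl⟩ : ∃ k, k < 4 ∧ r = k + 1 := by
    rcases hr with rfl | rfl
    · exact ⟨2, by norm_num, rfl⟩
    · exact ⟨3, by norm_num, rfl⟩
  have h1 := (Z_tendsto k hk).const_sub 1
  rw [sub_zero] at h1
  refine h1.congr fun n => ?_
  have h2 := av_ind (EE n (k + 1)) (fun H => ∃ v w : Fin n, v ≠ w ∧ deg H v = deg H w)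
  rw [card_powerset]
  push_cast
  have h3 := h2.symm.trans (av_congr (g := fun H => 1 - Z H) fun H _ => ?_)
  · rw [av_sub, av_const] at h3
    refine h3.symm.trans ?_
    congr!
  · unfold Z
    by_cases h : Function.Injective (deg H)
    · rw [if_pos h, if_neg]
      · norm_num
      · rintro ⟨v, w, hvw, he⟩
        exact hvw (h he)
    · rw [if_neg h, if_pos]
      · norm_num
      · unfold Function.Injective at h
        push Not at h
        obtain ⟨v, w, he, hvw⟩ := h
        exact ⟨v, w, hvw, he⟩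

end Pool.Agent.U140.IR
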