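import Pool.Agent.U140.IR.Low
import Pool.Agent.U140.IR.Sec

/-! Bonferroni inequality with three terms: random 5-uniform hypergraphs. -/

set_option autoImplicit false
set_option linter.unusedSectionVars false

namespace Pool.Agent.U140.IR

open Finset Filter Topology

section sums

variable {α : Type*} [DecidableEq α]

lemma triple_sum_sym (P : Finset α) (F : α → α → α → ℝ) (h1 : ∀ p q s, F p q s = F p s q)
    (h2 : ∀ p q s, F p q s = F q s p) (h0 : ∀ p q s, 0 ≤ F p q s) (R : α → α → Prop)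
    [DecidableRel R] :
    ∑ p ∈ P, ∑ q ∈ P, ∑ s ∈ P, F p q s ≤
      ∑ p ∈ P, ∑ q ∈ P, ∑ s ∈ P, (if ¬ R p q ∧ ¬ R p s ∧ ¬ R q s then F p q s else 0)
      + 3 * ∑ p ∈ P, ∑ q ∈ P, ∑ s ∈ P, (if R p q then F p q s else 0) := by
  have e0 : ∀ p q s, F p q s ≤ (if ¬ R p q ∧ ¬ R p s ∧ ¬ R q s then F p q s else 0)
      + ((if R p q then F p q s else 0) + (if R p s then F p q s else 0)
      + (if R q s then F p q s else 0)) := by
    intro p q s
    have := h0 p q s
    by_cases a : R p q <;> by_cases b : R p s <;> by_cases c : R q s <;> simp [a, b, c] <;> linarith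
  have e1 : ∑ p ∈ P, ∑ q ∈ P, ∑ s ∈ P, (if R p s then F p q s else 0)
      = ∑ p ∈ P, ∑ q ∈ P, ∑ s ∈ P, (if R p q then F p q s else 0) := by
    refine sum_congr rfl fun p _ => ?_
    rw [sum_comm]
    refine sum_congr rfl fun s _ => sum_congr rfl fun q _ => ?_
    rw [h1 p q s]
  have e2 : ∑ p ∈ P, ∑ q ∈ P, ∑ s ∈ P, (if R q s then F p q s else 0)
      = ∑ p ∈ P, ∑ q ∈ P, ∑ s ∈ P, (if R p q then F p q s else 0) := by
    rw [sum_comm]
    refine sum_congr rfl fun q _ => ?_
    rw [sum_comm]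
    refine sum_congr rfl fun s _ => sum_congr rfl fun p _ => ?_
    rw [h2 p q s]
  calc ∑ p ∈ P, ∑ q ∈ P, ∑ s ∈ P, F p q s
      ≤ ∑ p ∈ P, ∑ q ∈ P, ∑ s ∈ P, ((if ¬ R p q ∧ ¬ R p s ∧ ¬ R q s then F p q s else 0)
      + ((if R p q then F p q s else 0) + (if R p s then F p q s else 0)
      + (if R q s then F p q s else 0))) :=
        sum_le_sum fun p _ => sum_le_sum fun q _ => sum_le_sum fun s _ => e0 p q s
    _ = ∑ p ∈ P, ∑ q ∈ P, ∑ s ∈ P, (if ¬ R p q ∧ ¬ R p s ∧ ¬ R q s then F p q s else 0)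
      + 3 * ∑ p ∈ P, ∑ q ∈ P, ∑ s ∈ P, (if R p q then F p q s else 0) := by
        simp only [sum_add_distrib]
        rw [e1, e2]
        ring

/-- `x (x-1) (x-2)` as a sum over triples of distinct elements -/
lemma triple_identity (P : Finset α) (i : α → ℝ) (hi : ∀ p, i p * i p = i p) :
    (∑ p ∈ P, i p) * (∑ p ∈ P, i p - 1) * (∑ p ∈ P, i p - 2) =
      ∑ p ∈ P, ∑ q ∈ P, ∑ s ∈ P, (if p ≠ q ∧ p ≠ s ∧ q ≠ s then i p * i q * i s else 0) := by
  set x := ∑ p ∈ P, i p with hx
  have h1 : ∀ p ∈ P, ∀ q ∈ P, ∑ s ∈ P, (if p ≠ q ∧ p ≠ s ∧ q ≠ s then i p * i q * i s else 0)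
      = (if p ≠ q then i p * i q * (x - 2) else 0) := by
    intro p hp q hq
    by_cases hpq : p = q
    · simp [hpq]
    · have h2 : ∀ s ∈ P, (if p ≠ q ∧ p ≠ s ∧ q ≠ s then i p * i q * i s else 0)
          = i p * i q * i s - (if s = p then i p * i q * i s else 0)
            - (if s = q then i p * i q * i s else 0) := by
        intro s _
        by_cases h3 : s = p
        · subst h3
          simp [hpq]
        · by_cases h4 : s = q
          · subst h4
            simp [hpq, h3]
          · rw [if_pos ⟨hpq, fun h => h3 h.symm, fun h => h4 h.symm⟩, if_neg h3, if_neg h4]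
            ring
      rw [sum_congr rfl h2, sum_sub_distrib, sum_sub_distrib, sum_ite_eq' P p, if_pos hp,
        sum_ite_eq' P q, if_pos hq, ← mul_sum, ← hx, if_pos hpq]
      have e1 := hi p
      have e2 := hi q
      have e3 : i p * i q * i p = i p * i q := by rw [mul_right_comm, e1]
      have e4 : i p * i q * i q = i p * i q := by rw [mul_assoc, e2]
      rw [e3, e4]
      ring
  rw [sum_congr rfl fun p hp => sum_congr rfl fun q hq => h1 p hp q hq]
  have h3 : ∀ p ∈ P, ∑ q ∈ P, (if p ≠ q then i p * i q * (x - 2) else 0)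
      = i p * (x - 1) * (x - 2) := by
    intro p hp
    have h4 : ∀ q ∈ P, (if p ≠ q then i p * i q * (x - 2) else 0)
        = i p * i q * (x - 2) - (if q = p then i p * i q * (x - 2) else 0) := by
      intro q _
      by_cases h5 : q = p
      · subst h5; simp
      · rw [if_pos (fun h => h5 h.symm), if_neg h5, sub_zero]
    rw [sum_congr rfl h4, sum_sub_distrib, sum_ite_eq' P p, if_pos hp, hi p]
    rw [← sum_mul, ← mul_sum, ← hx]
    ring
  rw [sum_congr rfl h3, ← sum_mul, ← sum_mul, ← hx]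

lemma pair_identity (P : Finset α) (i : α → ℝ) (hi : ∀ p, i p * i p = i p) :
    (∑ p ∈ P, i p) * (∑ p ∈ P, i p - 1) =
      ∑ p ∈ P, ∑ q ∈ P, (if p ≠ q then i p * i q else 0) := by
  have h3 : ∀ p ∈ P, ∑ q ∈ P, (if p ≠ q then i p * i q else 0)
      = i p * (∑ p ∈ P, i p - 1) := by
    intro p hp
    have h4 : ∀ q ∈ P, (if p ≠ q then i p * i q else 0)
        = i p * i q - (if q = p then i p * i q else 0) := by
      intro q _
      by_cases h5 : q = p
      · subst h5; simp
      · rw [if_pos (fun h => h5 h.symm), if_neg h5, sub_zero]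
    rw [sum_congr rfl h4, sum_sub_distrib, sum_ite_eq' P p, if_pos hp, hi p, ← mul_sum]
    ring
  rw [sum_congr rfl h3, ← sum_mul]

end sums

variable {n : ℕ}

lemma X_nat (H : Finset (Finset (Fin n))) : ∃ x : ℕ, X H = x := by
  classical
  refine ⟨((PP n).filter (fun p => deg H p.1 = deg H p.2)).card, ?_⟩
  unfold X Ip I
  rw [sum_boole]

lemma Z_of_X_zero {H : Finset (Finset (Fin n))} (h : X H = 0) : Z H = 1 := by
  unfold Z
  rw [if_pos]
  intro v w hvw
  by_contra hne
  have h1 : ∀ p ∈ PP n, Ip p H = 0 := by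
    unfold X at h
    rwa [sum_eq_zero_iff_of_nonneg (fun p _ => Ip_nonneg p H)] at h
  rcases lt_or_gt_of_ne hne with h2 | h2
  · have h3 := h1 (v, w) (mem_PP.mpr h2)
    unfold Ip I at h3
    rw [if_pos hvw] at h3
    norm_num at h3
  · have h3 := h1 (w, v) (mem_PP.mpr h2)
    unfold Ip I at h3
    rw [if_pos hvw.symm] at h3
    norm_num at h3

/-- pointwise Bonferroni -/
lemma Z_ge (H : Finset (Finset (Fin n))) :
    1 - X H + X H * (X H - 1) / 2 - X H * (X H - 1) * (X H - 2) / 6 ≤ Z H := by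
  obtain ⟨x, hx⟩ := X_nat H
  have e : 1 - X H + X H * (X H - 1) / 2 - X H * (X H - 1) * (X H - 2) / 6
      = -((X H - 1) * (X H - 2) * (X H - 3)) / 6 := by ring
  rcases Nat.eq_zero_or_pos x with h | h
  · have : X H = 0 := by rw [hx, h]; simp
    rw [Z_of_X_zero this, this]; norm_num
  · rw [e, hx]
    have hZ := Z_nonneg H
    have h1 : (0 : ℝ) ≤ ((x : ℝ) - 1) * (x - 2) * (x - 3) := by
      rcases Nat.lt_or_ge x 3 with h3 | h3
      · interval_cases x <;> norm_num
      · have : (3 : ℝ) ≤ x := by exact_mod_cast h3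
        have a1 : (0 : ℝ) ≤ x - 1 := by linarith
        have a2 : (0 : ℝ) ≤ x - 2 := by linarith
        have a3 : (0 : ℝ) ≤ x - 3 := by linarith
        positivity
    linarith

/-- lower bound for the second factorial moment -/
lemma av_X2_ge (k : ℕ) {c : ℝ} (hc : 0 ≤ c)
    (h : ∀ p ∈ PP n, ∀ q ∈ PP n, ¬ share p q → c ≤ av (EE n (k + 1)) (fun H => Ip p H * Ip q H)) :
    (PP n).card * ((PP n).card - 4 * n) * c ≤
      av (EE n (k + 1)) (fun H => X H * (X H - 1)) := by
  have h1 : (fun H : Finset (Finset (Fin n)) => X H * (X H - 1))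
      = fun H => ∑ p ∈ PP n, ∑ q ∈ PP n, (if p ≠ q then Ip p H * Ip q H else 0) := by
    funext H
    exact pair_identity (PP n) (fun p => Ip p H) (fun p => I_sq _ _ _)
  rw [h1, av_sum]
  simp only [av_sum]
  have h2 : ∀ p ∈ PP n, ((PP n).card - 4 * (n : ℝ)) * c ≤ ∑ q ∈ PP n, av (EE n (k + 1))
      (fun H => if p ≠ q then Ip p H * Ip q H else 0) := by
    intro p hp
    have h3 : ∀ q ∈ PP n, (if share p q then 0 else c) ≤ av (EE n (k + 1))
        (fun H => if p ≠ q then Ip p H * Ip q H else 0) := by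
      intro q hq
      have h0 : 0 ≤ av (EE n (k + 1)) (fun H => if p ≠ q then Ip p H * Ip q H else 0) :=
        av_nonneg fun H _ => by
          split_ifs
          · exact mul_nonneg (Ip_nonneg _ _) (Ip_nonneg _ _)
          · exact le_rfl
      by_cases hs : share p q
      · rw [if_pos hs]; exact h0
      · have hne : p ≠ q := by
          intro he
          apply hs
          rw [he]; exact Or.inl rfl
        rw [if_neg hs]
        refine (h p hp q hq hs).trans (le_of_eq (av_congr fun H _ => ?_))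
        rw [if_pos hne]
    refine le_trans ?_ (sum_le_sum h3)
    have h5 : ∀ q ∈ PP n, (if share p q then 0 else c) = c - (if share p q then c else 0) := by
      intro q _
      split_ifs <;> ring
    rw [sum_congr rfl h5, sum_sub_distrib, sum_const, ← sum_filter, sum_const, nsmul_eq_mul,
      nsmul_eq_mul]
    have h6 : (((PP n).filter (share p)).card : ℝ) ≤ 4 * n := by exact_mod_cast card_share p
    have h7 := mul_le_mul_of_nonneg_right h6 hc
    linarith
  calc (PP n).card * ((PP n).card - 4 * (n : ℝ)) * c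
      = ∑ p ∈ PP n, ((PP n).card - 4 * (n : ℝ)) * c := by
        rw [sum_const, nsmul_eq_mul]; ring
    _ ≤ _ := sum_le_sum h2

/-- both endpoints of `s` are among the endpoints of `p` and `q` -/
def inside (p q s : Fin n × Fin n) : Prop :=
  s ∈ (({p.1, p.2, q.1, q.2} : Finset (Fin n)) ×ˢ ({p.1, p.2, q.1, q.2} : Finset (Fin n)))

instance (p q s : Fin n × Fin n) : Decidable (inside p q s) := by
  unfold inside; infer_instance

lemma card_inside (p q : Fin n × Fin n) : ((PP n).filter (inside p q)).card ≤ 16 := by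
  have h1 : (PP n).filter (inside p q) ⊆
      (({p.1, p.2, q.1, q.2} : Finset (Fin n)) ×ˢ ({p.1, p.2, q.1, q.2} : Finset (Fin n))) := by
    intro s hs
    exact (mem_filter.mp hs).2
  refine (card_le_card h1).trans ?_
  rw [card_product]
  have : ({p.1, p.2, q.1, q.2} : Finset (Fin n)).card ≤ 4 := card_le_four
  nlinarith

/-- the structure of two distinct pairs which share a vertex, with the vertices located -/
lemma share_cherry' {p q : Fin n × Fin n} (hp : p ∈ PP n) (hq : q ∈ PP n) (hne : p ≠ q)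
    (hs : share p q) : ∃ a b c : Fin n, a ≠ b ∧ a ≠ c ∧ b ≠ c ∧
      (∀ H, Ip p H = I b a H) ∧ (∀ H, Ip q H = I c a H) ∧
      ∀ x, x ∉ ({p.1, p.2, q.1, q.2} : Finset (Fin n)) → x ≠ a ∧ x ≠ b ∧ x ≠ c := by
  rw [mem_PP] at hp hq
  unfold Ip
  have hx : ∀ x, x ∉ ({p.1, p.2, q.1, q.2} : Finset (Fin n)) →
      x ≠ p.1 ∧ x ≠ p.2 ∧ x ≠ q.1 ∧ x ≠ q.2 := by
    intro x hx
    simp only [mem_insert, mem_singleton, not_or] at hx
    exact hx
  rcases hs with h | h | h | h
  · refine ⟨p.1, p.2, q.2, hp.ne, ?_, ?_, fun H => I_comm _ _ _, fun H => ?_, fun x h0 => ?_⟩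
    · rw [h]; exact hq.ne
    · intro h2; exact hne (Prod.ext h h2)
    · rw [h]; exact I_comm _ _ _
    · obtain ⟨x1, x2, x3, x4⟩ := hx x h0
      exact ⟨x1, x2, x4⟩
  · refine ⟨p.1, p.2, q.1, hp.ne, ?_, ?_, fun H => I_comm _ _ _, fun H => ?_, fun x h0 => ?_⟩
    · rw [h]; exact hq.ne'
    · intro h2
      have : q.1 < q.1 := hq.trans (by rw [← h, ← h2]; exact hp)
      exact lt_irrefl _ this
    · rw [h]
    · obtain ⟨x1, x2, x3, x4⟩ := hx x h0
      exact ⟨x1, x2, x3⟩
  · refine ⟨p.2, p.1, q.2, hp.ne', ?_, ?_, fun H => rfl, fun H => ?_, fun x h0 => ?_⟩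
    · rw [h]; exact hq.ne
    · intro h2
      have : p.1 < p.1 := hp.trans (by rw [h, h2]; exact hq)
      exact lt_irrefl _ this
    · rw [h]; exact I_comm _ _ _
    · obtain ⟨x1, x2, x3, x4⟩ := hx x h0
      exact ⟨x2, x1, x4⟩
  · refine ⟨p.2, p.1, q.1, hp.ne', ?_, ?_, fun H => rfl, fun H => ?_, fun x h0 => ?_⟩
    · rw [h]; exact hq.ne'
    · intro h2; exact hne (Prod.ext h2 h)
    · rw [h]
    · obtain ⟨x1, x2, x3, x4⟩ := hx x h0
      exact ⟨x2, x1, x3⟩

lemma rr_anti {m N : ℕ} (h : N ≤ m) : rr m ≤ rr N := by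
  unfold rr
  have : (N : ℝ) ≤ m := by exact_mod_cast h
  exact one_div_le_one_div_of_le (by positivity) (Real.sqrt_le_sqrt (by linarith))

lemma av_share3 (k : ℕ) {p q s : Fin n × Fin n} (hp : p ∈ PP n) (hq : q ∈ PP n) (hs : s ∈ PP n)
    (hpq : p ≠ q) (hsh : share p q) :
    av (EE n (k + 1)) (fun H => Ip p H * Ip q H * Ip s H) ≤
      (if inside p q s then rr ((n - 5).choose k) ^ 2 else 0) + rr ((n - 5).choose k) ^ 3 := by
  have hr := rr_nonneg ((n - 5).choose k)
  by_cases hin : inside p q s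
  · rw [if_pos hin]
    have h1 : av (EE n (k + 1)) (fun H => Ip p H * Ip q H * Ip s H) ≤
        av (EE n (k + 1)) (fun H => Ip p H * Ip q H) := by
      refine av_mono fun H _ => ?_
      have := mul_nonneg (Ip_nonneg p H) (Ip_nonneg q H)
      exact mul_le_of_le_one_right this (Ip_le_one s H)
    have h2 := av_share k hp hq hpq hsh
    have h3 : rr ((n - 3).choose k) ^ 2 ≤ rr ((n - 5).choose k) ^ 2 :=
      pow_le_pow_left₀ (rr_nonneg _) (rr_anti (Nat.choose_le_choose k (by omega))) 2
    have h4 : 0 ≤ rr ((n - 5).choose k) ^ 3 := by positivity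
    linarith
  · rw [if_neg hin, zero_add]
    obtain ⟨a, b, c, h1, h2, h3, h4, h5, h6⟩ := share_cherry' hp hq hpq hsh
    have hs' := (mem_PP.mp hs).ne
    simp only [h4, h5]
    unfold inside at hin
    rw [mem_product, not_and_or] at hin
    rcases hin with hd | hd
    · obtain ⟨x1, x2, x3⟩ := h6 _ hd
      exact av_tree k h1 h2 h3 x1 x2 x3 hs'.symm
    · obtain ⟨x1, x2, x3⟩ := h6 _ hd
      have : ∀ H : Finset (Finset (Fin n)), Ip s H = I s.2 s.1 H := fun H => I_comm _ _ _
      simp only [this]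
      exact av_tree k h1 h2 h3 x1 x2 x3 hs'

lemma av_disj3 (k : ℕ) {p q s : Fin n × Fin n} (hp : p ∈ PP n) (hq : q ∈ PP n) (hs : s ∈ PP n)
    (h1 : ¬ share p q) (h2 : ¬ share p s) (h3 : ¬ share q s) :
    av (EE n (k + 1)) (fun H => Ip p H * Ip q H * Ip s H) ≤ bet (2 * (n - 6).choose k) ^ 3 := by
  rw [mem_PP] at hp hq hs
  unfold share at h1 h2 h3
  push Not at h1 h2 h3
  have := av_III_le k hp.ne hq.ne hs.ne h1.1 h1.2.1 h1.2.2.1 h1.2.2.2 h2.1 h2.2.1 h2.2.2.1
    h2.2.2.2 h3.1 h3.2.1 h3.2.2.1 h3.2.2.2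
  refine le_trans (le_of_eq (av_congr fun H _ => ?_)) this
  unfold Ip
  ring

/-- upper bound for the third factorial moment -/
lemma av_X3_le (k n : ℕ) :
    av (EE n (k + 1)) (fun H => X H * (X H - 1) * (X H - 2)) ≤
      (PP n).card ^ 3 * bet (2 * (n - 6).choose k) ^ 3 +
      3 * ((PP n).card * (4 * n) * (16 * rr ((n - 5).choose k) ^ 2
        + (PP n).card * rr ((n - 5).choose k) ^ 3)) := by
  have h1 : (fun H : Finset (Finset (Fin n)) => X H * (X H - 1) * (X H - 2))
      = fun H => ∑ p ∈ PP n, ∑ q ∈ PP n, ∑ s ∈ PP n,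
        (if p ≠ q ∧ p ≠ s ∧ q ≠ s then Ip p H * Ip q H * Ip s H else 0) := by
    funext H
    exact triple_identity (PP n) (fun p => Ip p H) (fun p => I_sq _ _ _)
  rw [h1, av_sum]
  simp only [av_sum]
  have hr := rr_nonneg ((n - 5).choose k)
  set F : Fin n × Fin n → Fin n × Fin n → Fin n × Fin n → ℝ := fun p q s =>
    av (EE n (k + 1)) (fun H => if p ≠ q ∧ p ≠ s ∧ q ≠ s then Ip p H * Ip q H * Ip s H else 0)
    with hF
  have hF0 : ∀ p q s, 0 ≤ F p q s := by
    intro p q s
    refine av_nonneg fun H _ => ?_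
    split_ifs
    · exact mul_nonneg (mul_nonneg (Ip_nonneg _ _) (Ip_nonneg _ _)) (Ip_nonneg _ _)
    · exact le_rfl
  have hF1 : ∀ p q s, F p q s = F p s q := by
    intro p q s
    refine av_congr fun H _ => ?_
    refine ite_congr (propext ?_) (fun _ => by ring) (fun _ => rfl)
    constructor
    · rintro ⟨a, b, c⟩; exact ⟨b, a, c.symm⟩
    · rintro ⟨a, b, c⟩; exact ⟨b, a, c.symm⟩
  have hF2 : ∀ p q s, F p q s = F q s p := by
    intro p q s
    refine av_congr fun H _ => ?_
    refine ite_congr (propext ?_) (fun _ => by ring) (fun _ => rfl)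
    constructor
    · rintro ⟨a, b, c⟩; exact ⟨c, a.symm, b.symm⟩
    · rintro ⟨a, b, c⟩; exact ⟨b.symm, c.symm, a⟩
  refine (triple_sum_sym (PP n) F hF1 hF2 hF0 share).trans ?_
  refine add_le_add ?_ (mul_le_mul_of_nonneg_left ?_ (by norm_num))
  · have h2 : ∀ p ∈ PP n, ∀ q ∈ PP n, ∀ s ∈ PP n,
        (if ¬ share p q ∧ ¬ share p s ∧ ¬ share q s then F p q s else 0)
          ≤ bet (2 * (n - 6).choose k) ^ 3 := by
      intro p hp q hq s hs
      split_ifs with h
      · refine le_trans (av_mono fun H _ => ?_) (av_disj3 k hp hq hs h.1 h.2.1 h.2.2)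
        split_ifs
        · exact le_rfl
        · exact mul_nonneg (mul_nonneg (Ip_nonneg _ _) (Ip_nonneg _ _)) (Ip_nonneg _ _)
      · have := bet_nonneg (2 * (n - 6).choose k)
        positivity
    refine (sum_le_sum fun p hp => sum_le_sum fun q hq => sum_le_sum fun s hs =>
      h2 p hp q hq s hs).trans (le_of_eq ?_)
    simp only [sum_const, nsmul_eq_mul]
    ring
  · have h3 : ∀ p ∈ PP n, ∀ q ∈ PP n, ∑ s ∈ PP n, (if share p q then F p q s else 0)
        ≤ (if share p q then 16 * rr ((n - 5).choose k) ^ 2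
          + (PP n).card * rr ((n - 5).choose k) ^ 3 else 0) := by
      intro p hp q hq
      by_cases hsh : share p q
      · simp only [if_pos hsh]
        by_cases hpq : p = q
        · have : ∀ s ∈ PP n, F p q s = 0 := by
            intro s _
            rw [hF]
            simp only [hpq, ne_eq, not_true_eq_false, false_and, if_false]
            exact av_const _ _
          rw [sum_eq_zero this]
          positivity
        · have h4 : ∀ s ∈ PP n, F p q s ≤ (if inside p q s then rr ((n - 5).choose k) ^ 2 else 0)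
              + rr ((n - 5).choose k) ^ 3 := by
            intro s hs
            refine le_trans (av_mono fun H _ => ?_) (av_share3 k hp hq hs hpq hsh)
            split_ifs
            · exact le_rfl
            · exact mul_nonneg (mul_nonneg (Ip_nonneg _ _) (Ip_nonneg _ _)) (Ip_nonneg _ _)
          refine (sum_le_sum h4).trans ?_
          rw [sum_add_distrib, ← sum_filter, sum_const, sum_const, nsmul_eq_mul, nsmul_eq_mul]
          have h5 : (((PP n).filter (inside p q)).card : ℝ) ≤ 16 := by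
            exact_mod_cast card_inside p q
          have h6 := mul_le_mul_of_nonneg_right h5 (sq_nonneg (rr ((n - 5).choose k)))
          linarith
      · simp only [if_neg hsh, sum_const_zero, le_refl]
    have h7 : ∀ p ∈ PP n, ∑ q ∈ PP n, ∑ s ∈ PP n, (if share p q then F p q s else 0)
        ≤ (4 * n) * (16 * rr ((n - 5).choose k) ^ 2 + (PP n).card * rr ((n - 5).choose k) ^ 3) := by
      intro p hp
      refine (sum_le_sum fun q hq => h3 p hp q hq).trans ?_
      rw [← sum_filter, sum_const, nsmul_eq_mul]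
      have h6 : (((PP n).filter (share p)).card : ℝ) ≤ 4 * n := by exact_mod_cast card_share p
      exact mul_le_mul_of_nonneg_right h6 (by positivity)
    refine (sum_le_sum h7).trans (le_of_eq ?_)
    rw [sum_const, nsmul_eq_mul]
    ring

end Pool.Agent.U140.IR
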