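import Pool.Agent.U140.IR.Av

/-! Degrees in random hypergraphs, private edges, and the probabilities of coincidences. -/

set_option autoImplicit false
set_option linter.unusedSectionVars false

namespace Pool.Agent.U140.IR

open Finset

variable {n : ℕ}

/-- all `r`-subsets of `Fin n` -/
abbrev EE (n r : ℕ) : Finset (Finset (Fin n)) := (univ : Finset (Fin n)).powersetCard r

/-- the degree of `v` in the hypergraph `H` -/
def deg (H : Finset (Finset (Fin n))) (v : Fin n) : ℕ := (H.filter (fun e => v ∈ e)).card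

/-- edges which contain `v` and no other element of `S` -/
def Priv (r : ℕ) (S : Finset (Fin n)) (v : Fin n) : Finset (Finset (Fin n)) :=
  (EE n r).filter (fun e => v ∈ e ∧ ∀ s ∈ S, s ≠ v → s ∉ e)

lemma Priv_subset (r : ℕ) (S : Finset (Fin n)) (v : Fin n) : Priv r S v ⊆ EE n r :=
  filter_subset _ _

lemma card_Priv (k : ℕ) {S : Finset (Fin n)} {v : Fin n} (hv : v ∈ S) :
    (Priv (k + 1) S v).card = (n - S.card).choose k := by
  have h1 : Priv (k + 1) S v = ((univ \ S).powersetCard k).image (insert v) := by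
    ext e
    simp only [Priv, mem_filter, mem_powersetCard, subset_univ, true_and, mem_image]
    constructor
    · rintro ⟨hc, hve, hs⟩
      refine ⟨e.erase v, ⟨?_, ?_⟩, insert_erase hve⟩
      · intro x hx
        rw [mem_erase] at hx
        rw [mem_sdiff]
        exact ⟨mem_univ _, fun hxS => hs x hxS hx.1 hx.2⟩
      · rw [card_erase_of_mem hve, hc]; rfl
    · rintro ⟨f, ⟨hf, hfc⟩, rfl⟩
      have hvf : v ∉ f := fun h => (mem_sdiff.mp (hf h)).2 hv
      refine ⟨?_, mem_insert_self _ _, ?_⟩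
      · rw [card_insert_of_notMem hvf, hfc]
      · intro s hs hsv hse
        rcases mem_insert.mp hse with h | h
        · exact hsv h
        · exact (mem_sdiff.mp (hf h)).2 hs
  rw [h1, card_image_of_injOn, card_powersetCard, card_sdiff_of_subset (subset_univ _), card_univ,
    Fintype.card_fin]
  intro f hf g hg hfg
  have h2 : ∀ x : Finset (Fin n), x ∈ ((univ \ S).powersetCard k : Finset (Finset (Fin n))) →
      v ∉ x := by
    intro x hx h
    rw [mem_powersetCard] at hx
    exact (mem_sdiff.mp (hx.1 h)).2 hv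
  have hf' := h2 f hf
  have hg' := h2 g hg
  have : (insert v f).erase v = (insert v g).erase v := by rw [hfg]
  rwa [erase_insert hf', erase_insert hg'] at this

lemma Priv_disjoint (r : ℕ) {S : Finset (Fin n)} {u v : Fin n} (hu : u ∈ S) (_hv : v ∈ S)
    (huv : u ≠ v) : Disjoint (Priv r S u) (Priv r S v) := by
  rw [disjoint_left]
  intro e h1 h2
  exact (mem_filter.mp h2).2.2 u hu huv (mem_filter.mp h1).2.1

lemma deg_union {J K : Finset (Finset (Fin n))} (h : Disjoint J K) (v : Fin n) :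
    deg (J ∪ K) v = deg J v + deg K v := by
  unfold deg
  rw [filter_union, card_union_of_disjoint]
  exact disjoint_filter_filter h

lemma deg_all {J : Finset (Finset (Fin n))} {v : Fin n} (h : ∀ e ∈ J, v ∈ e) :
    deg J v = J.card := by
  unfold deg
  rw [filter_true_of_mem h]

lemma deg_none {J : Finset (Finset (Fin n))} {v : Fin n} (h : ∀ e ∈ J, v ∉ e) :
    deg J v = 0 := by
  unfold deg
  rw [filter_false_of_mem h, card_empty]

lemma deg_sdiff {H D : Finset (Finset (Fin n))} {v : Fin n} (h : ∀ e ∈ D, v ∉ e) :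
    deg (H \ D) v = deg H v := by
  unfold deg
  congr 1
  ext e
  simp only [mem_filter, mem_sdiff]
  constructor
  · rintro ⟨⟨a, _⟩, c⟩; exact ⟨a, c⟩
  · rintro ⟨a, c⟩; exact ⟨⟨a, fun hD => h e hD c⟩, c⟩

lemma Priv_mem {r : ℕ} {S : Finset (Fin n)} {v : Fin n} {e : Finset (Fin n)}
    (h : e ∈ Priv r S v) : v ∈ e := (mem_filter.mp h).2.1

lemma Priv_notMem {r : ℕ} {S : Finset (Fin n)} {u v : Fin n} (hu : u ∈ S) (huv : u ≠ v)
    {e : Finset (Fin n)} (h : e ∈ Priv r S v) : u ∉ e := (mem_filter.mp h).2.2 u hu huv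

open Classical in
/-- the indicator of `d(u) = d(v)` -/
noncomputable def I (u v : Fin n) (H : Finset (Finset (Fin n))) : ℝ :=
  if deg H u = deg H v then 1 else 0

lemma I_nonneg (u v : Fin n) (H : Finset (Finset (Fin n))) : 0 ≤ I u v H := by
  unfold I; split_ifs <;> norm_num

lemma I_le_one (u v : Fin n) (H : Finset (Finset (Fin n))) : I u v H ≤ 1 := by
  unfold I; split_ifs <;> norm_num

lemma I_sq (u v : Fin n) (H : Finset (Finset (Fin n))) : I u v H * I u v H = I u v H := by
  unfold I; split_ifs <;> norm_num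

lemma I_comm (u v : Fin n) (H : Finset (Finset (Fin n))) : I u v H = I v u H := by
  unfold I
  exact if_congr eq_comm rfl rfl

lemma I_sdiff {D : Finset (Finset (Fin n))} {u v : Fin n} (hu : ∀ e ∈ D, u ∉ e)
    (hv : ∀ e ∈ D, v ∉ e) (H : Finset (Finset (Fin n))) : I u v (H \ D) = I u v H := by
  unfold I
  rw [deg_sdiff hu, deg_sdiff hv]

/-- rough peeling of one private set -/
lemma peel_one {r : ℕ} {S : Finset (Fin n)} {t ρ : Fin n} (_ht : t ∈ S) (hρ : ρ ∈ S) (hne : ρ ≠ t)
    {E : Finset (Finset (Fin n))} (hE : Priv r S t ⊆ E) {g : Finset (Finset (Fin n)) → ℝ}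
    (hg0 : ∀ H, 0 ≤ g H) (hg : ∀ H, g (H \ Priv r S t) = g H) :
    av E (fun H => g H * I t ρ H) ≤ bet (Priv r S t).card * av E g := by
  refine av_peel hE hg0 hg fun K hK => ?_
  refine le_trans (le_of_eq (av_congr fun J hJ => ?_)) (av_card_le (Priv r S t) (deg K t) (deg K ρ))
  have hd : Disjoint J K := disjoint_of_subset_left hJ (disjoint_of_subset_right hK disjoint_sdiff)
  unfold I
  rw [deg_union hd, deg_union hd, deg_all (fun e he => Priv_mem (hJ he)),
    deg_none (fun e he => Priv_notMem hρ hne (hJ he)), zero_add]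

lemma two_priv {r : ℕ} {S : Finset (Fin n)} {u v : Fin n} (hu : u ∈ S) (hv : v ∈ S) (huv : u ≠ v)
    {E K : Finset (Finset (Fin n))} (hK : K ⊆ E \ (Priv r S u ∪ Priv r S v)) :
    av (Priv r S u ∪ Priv r S v) (fun J => I u v (J ∪ K))
      = av (Priv r S u ∪ Priv r S v) (fun J => if J.card + deg K u = (Priv r S v).card + deg K v
          then 1 else 0) := by
  classical
  have h0 := av_two (Priv_disjoint r hu hv huv) (deg K u) (deg K v)
  refine Eq.trans ?_ (h0.trans (av_congr fun J _ => by congr))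
  refine av_congr fun J hJ => ?_
  have hd : Disjoint J K := disjoint_of_subset_left hJ (disjoint_of_subset_right hK disjoint_sdiff)
  unfold I
  have e1 : deg J u = (J ∩ Priv r S u).card := by
    unfold deg
    congr 1
    ext e
    rw [mem_filter, mem_inter]
    constructor
    · rintro ⟨h1, h2⟩
      refine ⟨h1, ?_⟩
      rcases mem_union.mp (hJ h1) with h | h
      · exact h
      · exact absurd h2 (Priv_notMem hu huv h)
    · rintro ⟨h1, h2⟩
      exact ⟨h1, Priv_mem h2⟩
  have e2 : deg J v = (J ∩ Priv r S v).card := by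
    unfold deg
    congr 1
    ext e
    rw [mem_filter, mem_inter]
    constructor
    · rintro ⟨h1, h2⟩
      refine ⟨h1, ?_⟩
      rcases mem_union.mp (hJ h1) with h | h
      · exact absurd h2 (Priv_notMem hv huv.symm h)
      · exact h
    · rintro ⟨h1, h2⟩
      exact ⟨h1, Priv_mem h2⟩
  rw [deg_union hd, deg_union hd, e1, e2]

/-- sharp peeling of the two private sets of a pair -/
lemma peel_two {k : ℕ} {S : Finset (Fin n)} {u v : Fin n} (hu : u ∈ S) (hv : v ∈ S) (huv : u ≠ v)
    {E : Finset (Finset (Fin n))} (hE : Priv (k + 1) S u ∪ Priv (k + 1) S v ⊆ E)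
    {g : Finset (Finset (Fin n)) → ℝ}
    (hg0 : ∀ H, 0 ≤ g H) (hg : ∀ H, g (H \ (Priv (k + 1) S u ∪ Priv (k + 1) S v)) = g H) :
    av E (fun H => g H * I u v H) ≤ bet (2 * (n - S.card).choose k) * av E g := by
  refine av_peel hE hg0 hg fun K hK => ?_
  rw [two_priv hu hv huv hK]
  have h1 : (Priv (k + 1) S u ∪ Priv (k + 1) S v).card = 2 * (n - S.card).choose k := by
    rw [card_union_of_disjoint (Priv_disjoint _ hu hv huv), card_Priv k hu, card_Priv k hv]
    ring
  rw [← h1]
  refine le_trans (le_of_eq ?_) (av_card_le (Priv (k + 1) S u ∪ Priv (k + 1) S v) (deg K u)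
    ((Priv (k + 1) S v).card + deg K v))
  refine av_congr fun J _ => ?_
  congr

/-- `P(d(u) = d(v))` -/
lemma av_I (k : ℕ) {u v : Fin n} (huv : u ≠ v) :
    av (EE n (k + 1)) (I u v) = bet (2 * (n - 2).choose k) := by
  classical
  set S : Finset (Fin n) := {u, v} with hS
  have hu : u ∈ S := by simp [hS]
  have hv : v ∈ S := by simp [hS]
  have hSc : S.card = 2 := card_pair huv
  set D := Priv (k + 1) S u ∪ Priv (k + 1) S v with hD
  have hDE : D ⊆ EE n (k + 1) := union_subset (Priv_subset _ _ _) (Priv_subset _ _ _)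
  have hN : (Priv (k + 1) S v).card = (n - 2).choose k := by rw [card_Priv k hv, hSc]
  have hDc : D.card = 2 * (n - 2).choose k := by
    rw [hD, card_union_of_disjoint (Priv_disjoint _ hu hv huv), card_Priv k hu, card_Priv k hv, hSc]
    ring
  rw [av_sub_split hDE]
  have h1 : ∀ K ⊆ EE n (k + 1) \ D, av D (fun J => I u v (J ∪ K)) = bet (2 * (n - 2).choose k) := by
    intro K hK
    rw [hD, two_priv hu hv huv hK, ← hD]
    have h2 : deg K u = deg K v := by
      unfold deg
      congr 1
      refine filter_congr fun e he => ?_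
      have h3 := mem_sdiff.mp (hK he)
      have h4 : ∀ x y : Fin n, (x = u ∧ y = v) ∨ (x = v ∧ y = u) → x ∈ e → y ∈ e := by
        intro x y hxy hx
        by_contra hy
        apply h3.2
        rw [hD, mem_union]
        rcases hxy with ⟨rfl, rfl⟩ | ⟨rfl, rfl⟩
        · left
          refine mem_filter.mpr ⟨h3.1, hx, ?_⟩
          intro s hs hsx
          rw [hS, mem_insert, mem_singleton] at hs
          rcases hs with h | h
          · exact absurd h hsx
          · rw [h]; exact hy
        · right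
          refine mem_filter.mpr ⟨h3.1, hx, ?_⟩
          intro s hs hsx
          rw [hS, mem_insert, mem_singleton] at hs
          rcases hs with h | h
          · rw [h]; exact hy
          · exact absurd h hsx
      exact ⟨h4 u v (Or.inl ⟨rfl, rfl⟩), h4 v u (Or.inr ⟨rfl, rfl⟩)⟩
    have h5 := av_card_eq D (deg K u) ((Priv (k + 1) S v).card + deg K v) ((n - 2).choose k)
      (by rw [hN, h2])
    rw [hDc] at h5
    unfold bet
    rw [Nat.mul_div_cancel_left _ (by norm_num : 0 < 2)]
    rw [← h5]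
  rw [av_congr h1, av_const]

/-- two disjoint pairs, upper bound -/
lemma av_II_le (k : ℕ) {u v w z : Fin n} (huv : u ≠ v) (hwz : w ≠ z) (huw : u ≠ w) (huz : u ≠ z)
    (hvw : v ≠ w) (hvz : v ≠ z) :
    av (EE n (k + 1)) (fun H => I w z H * I u v H) ≤ bet (2 * (n - 4).choose k) ^ 2 := by
  classical
  set S : Finset (Fin n) := {u, v, w, z} with hS
  have hSc : S.card = 4 := by
    rw [hS, card_insert_of_notMem, card_insert_of_notMem, card_pair hwz]
    · simp [hvw, hvz]
    · simp [huv, huw, huz]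
  have hu : u ∈ S := by simp [hS]
  have hv : v ∈ S := by simp [hS]
  have hw : w ∈ S := by simp [hS]
  have hz : z ∈ S := by simp [hS]
  have h1 := peel_two (k := k) hu hv huv (E := EE n (k + 1))
    (union_subset (Priv_subset _ _ _) (Priv_subset _ _ _)) (g := I w z) (I_nonneg w z)
    (I_sdiff (fun e he => by
      rcases mem_union.mp he with h | h
      · exact Priv_notMem hw huw.symm h
      · exact Priv_notMem hw hvw.symm h) (fun e he => by
      rcases mem_union.mp he with h | h
      · exact Priv_notMem hz huz.symm h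
      · exact Priv_notMem hz hvz.symm h))
  have h2 := peel_two (k := k) hw hz hwz (E := EE n (k + 1))
    (union_subset (Priv_subset _ _ _) (Priv_subset _ _ _)) (g := fun _ => 1)
    (fun _ => zero_le_one) (fun _ => rfl)
  rw [hSc] at h1 h2
  rw [av_const] at h2
  simp only [one_mul, mul_one] at h2
  refine h1.trans ?_
  rw [sq]
  exact mul_le_mul_of_nonneg_left h2 (bet_nonneg _)

/-- three disjoint pairs, upper bound -/
lemma av_III_le (k : ℕ) {p q s : Fin n × Fin n} (hp : p.1 ≠ p.2) (hq : q.1 ≠ q.2) (hs : s.1 ≠ s.2)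
    (h1 : p.1 ≠ q.1) (h2 : p.1 ≠ q.2) (h3 : p.2 ≠ q.1) (h4 : p.2 ≠ q.2)
    (h5 : p.1 ≠ s.1) (h6 : p.1 ≠ s.2) (h7 : p.2 ≠ s.1) (h8 : p.2 ≠ s.2)
    (h9 : q.1 ≠ s.1) (h10 : q.1 ≠ s.2) (h11 : q.2 ≠ s.1) (h12 : q.2 ≠ s.2) :
    av (EE n (k + 1)) (fun H => I s.1 s.2 H * I q.1 q.2 H * I p.1 p.2 H)
      ≤ bet (2 * (n - 6).choose k) ^ 3 := by
  classical
  set S : Finset (Fin n) := {p.1, p.2, q.1, q.2, s.1, s.2} with hS
  have hSc : S.card = 6 := by
    rw [hS, card_insert_of_notMem, card_insert_of_notMem, card_insert_of_notMem,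
      card_insert_of_notMem, card_pair hs]
    · simp [h11, h12]
    · simp [hq, h9, h10]
    · simp [h3, h4, h7, h8]
    · simp [hp, h1, h2, h5, h6]
  have m1 : p.1 ∈ S := by simp [hS]
  have m2 : p.2 ∈ S := by simp [hS]
  have m3 : q.1 ∈ S := by simp [hS]
  have m4 : q.2 ∈ S := by simp [hS]
  have m5 : s.1 ∈ S := by simp [hS]
  have m6 : s.2 ∈ S := by simp [hS]
  have key : ∀ a b c : Fin n, c ∈ S → c ≠ a → c ≠ b →
      ∀ e ∈ Priv (k + 1) S a ∪ Priv (k + 1) S b, c ∉ e := by
    intro a b c hc ha hb e he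
    rcases mem_union.mp he with h | h
    · exact Priv_notMem hc ha h
    · exact Priv_notMem hc hb h
  have e1 := peel_two (k := k) m1 m2 hp (E := EE n (k + 1))
    (union_subset (Priv_subset _ _ _) (Priv_subset _ _ _))
    (g := fun H => I s.1 s.2 H * I q.1 q.2 H)
    (fun H => mul_nonneg (I_nonneg _ _ _) (I_nonneg _ _ _))
    (fun H => by
      show I s.1 s.2 (H \ _) * I q.1 q.2 (H \ _) = _
      rw [I_sdiff (key _ _ _ m5 h5.symm h7.symm) (key _ _ _ m6 h6.symm h8.symm),
        I_sdiff (key _ _ _ m3 h1.symm h3.symm) (key _ _ _ m4 h2.symm h4.symm)])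
  have e2 := peel_two (k := k) m3 m4 hq (E := EE n (k + 1))
    (union_subset (Priv_subset _ _ _) (Priv_subset _ _ _))
    (g := fun H => I s.1 s.2 H)
    (fun H => I_nonneg _ _ _)
    (fun H => by
      show I s.1 s.2 (H \ _) = _
      rw [I_sdiff (key _ _ _ m5 h9.symm h11.symm) (key _ _ _ m6 h10.symm h12.symm)])
  have e3 := peel_two (k := k) m5 m6 hs (E := EE n (k + 1))
    (union_subset (Priv_subset _ _ _) (Priv_subset _ _ _)) (g := fun _ => 1)
    (fun _ => zero_le_one) (fun _ => rfl)
  rw [hSc] at e1 e2 e3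
  rw [av_const] at e3
  simp only [one_mul, mul_one] at e3
  have hb := bet_nonneg (2 * (n - 6).choose k)
  calc av (EE n (k + 1)) (fun H => I s.1 s.2 H * I q.1 q.2 H * I p.1 p.2 H)
      ≤ bet (2 * (n - 6).choose k) * av (EE n (k + 1)) (fun H => I s.1 s.2 H * I q.1 q.2 H) := e1
    _ ≤ bet (2 * (n - 6).choose k) * (bet (2 * (n - 6).choose k) *
          av (EE n (k + 1)) (fun H => I s.1 s.2 H)) := mul_le_mul_of_nonneg_left e2 hb
    _ ≤ bet (2 * (n - 6).choose k) * (bet (2 * (n - 6).choose k) * bet (2 * (n - 6).choose k)) :=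
        mul_le_mul_of_nonneg_left (mul_le_mul_of_nonneg_left e3 hb) hb
    _ = _ := by ring

/-- rough bound function -/
noncomputable def rr (m : ℕ) : ℝ := 1 / Real.sqrt (m + 1)

lemma rr_nonneg (m : ℕ) : 0 ≤ rr m := by unfold rr; positivity

lemma rr_sq (m : ℕ) : rr m ^ 2 = 1 / (m + 1) := by
  unfold rr
  rw [div_pow, one_pow, Real.sq_sqrt (by positivity)]

lemma bet_le_rr {m N : ℕ} (h : N ≤ m) : bet m ≤ rr N := by
  refine abs_le_of_sq_le_sq' ?_ (rr_nonneg N) |>.2
  rw [rr_sq]
  refine (bet_sq_le m).trans ?_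
  have : (N : ℝ) ≤ m := by exact_mod_cast h
  exact one_div_le_one_div_of_le (by positivity) (by linarith)

lemma peel_rr {k m : ℕ} {S : Finset (Fin n)} (hS : S.card ≤ m) {t ρ : Fin n} (ht : t ∈ S)
    (hρ : ρ ∈ S) (hne : ρ ≠ t) {g : Finset (Finset (Fin n)) → ℝ}
    (hg0 : ∀ H, 0 ≤ g H) (hg : ∀ H, g (H \ Priv (k + 1) S t) = g H) :
    av (EE n (k + 1)) (fun H => g H * I t ρ H) ≤
      rr ((n - m).choose k) * av (EE n (k + 1)) g := by
  refine (peel_one ht hρ hne (Priv_subset _ _ _) hg0 hg).trans ?_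
  refine mul_le_mul_of_nonneg_right ?_ (av_nonneg fun H _ => hg0 H)
  rw [card_Priv k ht]
  exact bet_le_rr (Nat.choose_le_choose k (by omega))

/-- a cherry -/
lemma av_cherry (k : ℕ) {a b c : Fin n} (hab : a ≠ b) (hac : a ≠ c) (hbc : b ≠ c) :
    av (EE n (k + 1)) (fun H => I b a H * I c a H) ≤ rr ((n - 3).choose k) ^ 2 := by
  classical
  set S : Finset (Fin n) := {a, b, c} with hS
  have hSc : S.card ≤ 3 := card_le_three
  have ha : a ∈ S := by simp [hS]
  have hb : b ∈ S := by simp [hS]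
  have hc : c ∈ S := by simp [hS]
  have h1 := peel_rr (k := k) hSc hc ha hac (g := I b a) (I_nonneg b a)
    (I_sdiff (fun e he => Priv_notMem hb hbc he) (fun e he => Priv_notMem ha hac he))
  have h2 := peel_rr (k := k) hSc hb ha hab (g := fun _ => 1)
    (fun _ => zero_le_one) (fun _ => rfl)
  rw [av_const] at h2
  simp only [one_mul, mul_one] at h2
  refine h1.trans ?_
  rw [sq]
  exact mul_le_mul_of_nonneg_left h2 (rr_nonneg _)

/-- a cherry and one more pair with a new vertex -/
lemma av_tree (k : ℕ) {a b c d e : Fin n} (hab : a ≠ b) (hac : a ≠ c) (hbc : b ≠ c)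
    (hda : d ≠ a) (hdb : d ≠ b) (hdc : d ≠ c) (hde : e ≠ d) :
    av (EE n (k + 1)) (fun H => I b a H * I c a H * I d e H) ≤ rr ((n - 5).choose k) ^ 3 := by
  classical
  set S : Finset (Fin n) := {a, b, c, d, e} with hS
  have hSc : S.card ≤ 5 := card_le_five
  have ha : a ∈ S := by simp [hS]
  have hb : b ∈ S := by simp [hS]
  have hc : c ∈ S := by simp [hS]
  have hd : d ∈ S := by simp [hS]
  have he : e ∈ S := by simp [hS]
  have h0 := peel_rr (k := k) hSc hd he hde (g := fun H => I b a H * I c a H)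
    (fun H => mul_nonneg (I_nonneg _ _ _) (I_nonneg _ _ _))
    (fun H => by
      show I b a (H \ _) * I c a (H \ _) = _
      rw [I_sdiff (fun x hx => Priv_notMem hb hdb.symm hx) (fun x hx => Priv_notMem ha hda.symm hx),
        I_sdiff (fun x hx => Priv_notMem hc hdc.symm hx) (fun x hx => Priv_notMem ha hda.symm hx)])
  have h1 := peel_rr (k := k) hSc hc ha hac (g := I b a) (I_nonneg b a)
    (I_sdiff (fun x hx => Priv_notMem hb hbc hx) (fun x hx => Priv_notMem ha hac hx))
  have h2 := peel_rr (k := k) hSc hb ha hab (g := fun _ => 1)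
    (fun _ => zero_le_one) (fun _ => rfl)
  rw [av_const] at h2
  simp only [one_mul, mul_one] at h2
  have hr := rr_nonneg ((n - 5).choose k)
  calc av (EE n (k + 1)) (fun H => I b a H * I c a H * I d e H)
      ≤ rr ((n - 5).choose k) * av (EE n (k + 1)) (fun H => I b a H * I c a H) := h0
    _ ≤ rr ((n - 5).choose k) * (rr ((n - 5).choose k) * av (EE n (k + 1)) (I b a)) :=
        mul_le_mul_of_nonneg_left h1 hr
    _ ≤ rr ((n - 5).choose k) * (rr ((n - 5).choose k) * rr ((n - 5).choose k)) :=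
        mul_le_mul_of_nonneg_left (mul_le_mul_of_nonneg_left h2 hr) hr
    _ = _ := by ring

end Pool.Agent.U140.IR
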