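import Pool.Agent.U140.IR.Bon

/-! Random 5-uniform hypergraphs are irregular with probability bounded away from zero. -/

set_option autoImplicit false
set_option linter.unusedSectionVars false

namespace Pool.Agent.U140.IR

open Finset Filter Topology

lemma Z_lower (k n : ℕ) {c : ℝ} (hc : 0 ≤ c)
    (h : ∀ p ∈ PP n, ∀ q ∈ PP n, ¬ share p q → c ≤ av (EE n (k + 1)) (fun H => Ip p H * Ip q H)) :
    1 - (PP n).card * bet (2 * (n - 2).choose k) + (PP n).card * ((PP n).card - 4 * n) * c / 2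
      - ((PP n).card ^ 3 * bet (2 * (n - 6).choose k) ^ 3 +
      3 * ((PP n).card * (4 * n) * (16 * rr ((n - 5).choose k) ^ 2
        + (PP n).card * rr ((n - 5).choose k) ^ 3))) / 6 ≤ av (EE n (k + 1)) Z := by
  have h1 : av (EE n (k + 1)) (fun H => 1 - X H + X H * (X H - 1) / 2
      - X H * (X H - 1) * (X H - 2) / 6) ≤ av (EE n (k + 1)) Z :=
    av_mono fun H _ => Z_ge H
  refine le_trans ?_ h1
  have h2 : av (EE n (k + 1)) (fun H => 1 - X H + X H * (X H - 1) / 2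
      - X H * (X H - 1) * (X H - 2) / 6)
      = 1 - av (EE n (k + 1)) X + (1 / 2) * av (EE n (k + 1)) (fun H => X H * (X H - 1))
        - (1 / 6) * av (EE n (k + 1)) (fun H => X H * (X H - 1) * (X H - 2)) := by
    have e : (fun H : Finset (Finset (Fin n)) => 1 - X H + X H * (X H - 1) / 2
      - X H * (X H - 1) * (X H - 2) / 6) = fun H => (((1 : ℝ) - X H)
        + (1 / 2) * (X H * (X H - 1))) - (1 / 6) * (X H * (X H - 1) * (X H - 2)) := by
      funext H; ring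
    rw [e, av_sub, av_add, av_sub, av_const, av_mul, av_mul]
  rw [h2, av_X]
  have h3 := av_X2_ge k hc h
  have h4 := av_X3_le k n
  linarith

/-- the choice of the constant in the lower bound for pairs -/
lemma c_lower (k n : ℕ) (hn : k + 4 ≤ n) {ρ : ℝ}
    (hρ : ρ = ((n - 2).choose k : ℝ) / ((n - 4).choose k : ℝ)) {p q : Fin n × Fin n}
    (hp : p ∈ PP n) (hq : q ∈ PP n) (hs : ¬ share p q) :
    bet (2 * (n - 2).choose k) ^ 2 * (1 - ρ * (ρ - 1) / 2) ≤
      av (EE n (k + 1)) (fun H => Ip p H * Ip q H) := by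
  rw [mem_PP] at hp hq
  unfold share at hs
  push Not at hs
  set M : ℕ := (n - 2).choose k with hM
  set N : ℕ := (n - 4).choose k with hN
  have hN1 : 1 ≤ N := Nat.choose_pos (by omega)
  have hNM : N ≤ M := Nat.choose_le_choose k (by omega)
  have hNr : (0 : ℝ) < N := by exact_mod_cast hN1
  have hNMr : (N : ℝ) ≤ M := by exact_mod_cast hNM
  have h1 := av_II_ge k hN1 hq.ne hp.ne (Ne.symm hs.1) (Ne.symm hs.2.2.1) (Ne.symm hs.2.1)
    (Ne.symm hs.2.2.2)
  rw [← hM, ← hN] at h1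
  refine le_trans ?_ h1
  have e1 : ((M : ℝ) - N) / (2 * N) = (ρ - 1) / 2 := by
    rw [hρ]; field_simp
  rw [e1]
  have hb := bet_nonneg (2 * M)
  have hbN := bet_nonneg (2 * N)
  have h2 := bet_anti hNM
  have h3 := bet_ratio hNM
  have h4 : bet (2 * N) ^ 2 ≤ bet (2 * M) ^ 2 * ρ := by
    rw [hρ, ← mul_div_assoc, le_div_iff₀ hNr]
    exact h3
  have hρ1 : 1 ≤ ρ := by rw [hρ, one_le_div hNr]; exact hNMr
  have h5 : bet (2 * M) ^ 2 ≤ bet (2 * N) * bet (2 * M) := by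
    rw [sq]; exact mul_le_mul_of_nonneg_right h2 hb
  have h6 : bet (2 * N) ^ 2 * ((ρ - 1) / 2) ≤ bet (2 * M) ^ 2 * ρ * ((ρ - 1) / 2) :=
    mul_le_mul_of_nonneg_right h4 (by linarith)
  nlinarith [h5, h6]

lemma final_ineq {x d1 d2 d3 : ℝ} (hx0 : 0 ≤ x) (hx : x ≤ 71 / 50) (h1 : 99 / 100 ≤ d1)
    (h2 : d2 ≤ 101 / 100) (h3 : d3 ≤ 1 / 100) :
    1 / 20 ≤ 1 - x + d1 * x ^ 2 / 2 - d2 * x ^ 3 / 6 - d3 := by
  have hx2 : 0 ≤ x ^ 2 := by positivity
  have hx3 : 0 ≤ x ^ 3 := by positivity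
  have a1 : 99 / 100 * x ^ 2 ≤ d1 * x ^ 2 := mul_le_mul_of_nonneg_right h1 hx2
  have a2 : d2 * x ^ 3 ≤ 101 / 100 * x ^ 3 := mul_le_mul_of_nonneg_right h2 hx3
  have a3 : x ^ 3 ≤ 71 / 50 * x ^ 2 := by
    have : x ^ 3 = x * x ^ 2 := by ring
    rw [this]
    exact mul_le_mul_of_nonneg_right hx hx2
  have a4 : 0 ≤ (71 / 50 - x) * (62 / 25 - x) := mul_nonneg (by linarith) (by linarith)
  nlinarith

theorem main5 : ∃ N : ℕ, ∀ n : ℕ, N ≤ n → 1 / 20 ≤ av (EE n 5) Z := by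
  rw [← eventually_atTop]
  have hPne : ∀ n : ℕ, 2 ≤ n → (0 : ℝ) < (PP n).card := by
    intro n hn
    rw [card_PP_real]
    have : (2 : ℝ) ≤ n := by exact_mod_cast hn
    nlinarith
  -- limits
  have l1 : Tendsto (fun n : ℕ => (n : ℝ) / (PP n).card) atTop (𝓝 0) := by
    have h3 : Tendsto (fun n : ℕ => (1 : ℝ) / (n : ℝ)) atTop (𝓝 0) :=
      tendsto_one_div_atTop_nhds_zero_nat
    have h4 := h3.div lim_PP (by norm_num)
    rw [zero_div] at h4
    refine h4.congr' ?_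
    filter_upwards [eventually_ge_atTop 2] with n hn
    have hn0 : (n : ℝ) ≠ 0 := by
      have : 0 < n := by omega
      positivity
    have hP0 := (hPne n hn).ne'
    simp only [Pi.div_apply]
    field_simp
  have l2 := lim_ratio 2 4 4
  have l6 := lim_ratio 2 6 4
  have l7 : Tendsto (fun n : ℕ => (1 - 4 * ((n : ℝ) / (PP n).card)) * (1 -
      (((n - 2).choose 4 : ℝ) / ((n - 4).choose 4 : ℝ)) *
      ((((n - 2).choose 4 : ℝ) / ((n - 4).choose 4 : ℝ)) - 1) / 2)) atTop (𝓝 1) := by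
    have := ((l1.const_mul 4).const_sub 1).mul (((l2.mul (l2.sub_const 1)).div_const 2).const_sub 1)
    simpa using this
  have l7b : Tendsto (fun n : ℕ => (1 -
      (((n - 2).choose 4 : ℝ) / ((n - 4).choose 4 : ℝ)) *
      ((((n - 2).choose 4 : ℝ) / ((n - 4).choose 4 : ℝ)) - 1) / 2)) atTop (𝓝 1) := by
    have := (((l2.mul (l2.sub_const 1)).div_const 2).const_sub 1)
    simpa using this
  have l8 : Tendsto (fun n : ℕ => (((n - 2).choose 4 : ℝ) / ((n - 6).choose 4 : ℝ)) ^ 2) atTop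
      (𝓝 1) := by
    have := l6.pow 2
    simpa using this
  have hfac : ((Nat.factorial 4 : ℕ) : ℝ) = 24 := by norm_num [Nat.factorial]
  have l9 : Tendsto (fun n : ℕ => ((PP n).card : ℝ) ^ 2 / (3 * ((n - 2).choose 4 : ℝ))) atTop
      (𝓝 2) := by
    have h1 := (lim_choose 2 4).const_mul 3
    have h2 := (lim_PP.pow 2).div h1 (by rw [hfac]; norm_num)
    rw [hfac] at h2
    have e : ((1 : ℝ) / 2) ^ 2 / (3 * (1 / 24)) = 2 := by norm_num
    rw [e] at h2
    refine h2.congr' ?_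
    filter_upwards [eventually_ge_atTop 6] with n hn
    have hn0 : (n : ℝ) ≠ 0 := by
      have : 0 < n := by omega
      positivity
    have hM0 : ((n - 2).choose 4 : ℝ) ≠ 0 := by
      have : 0 < (n - 2).choose 4 := Nat.choose_pos (by omega)
      positivity
    simp only [Pi.div_apply]
    field_simp
  have l10 : Tendsto (fun n : ℕ => 32 * ((n : ℝ) * (PP n).card / ((n - 5).choose 4 : ℝ))) atTop
      (𝓝 0) := by
    have h1 := lim_choose 5 4
    have h2 := (lim_PP.div h1 (by rw [hfac]; norm_num)).mul tendsto_one_div_atTop_nhds_zero_nat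
    have h3 := h2.const_mul 32
    rw [mul_zero, mul_zero] at h3
    refine h3.congr' ?_
    filter_upwards [eventually_ge_atTop 9] with n hn
    have hn0 : (n : ℝ) ≠ 0 := by
      have : 0 < n := by omega
      positivity
    have hM0 : ((n - 5).choose 4 : ℝ) ≠ 0 := by
      have : 0 < (n - 5).choose 4 := Nat.choose_pos (by omega)
      positivity
    simp only [Pi.div_apply]
    field_simp
  have l11 : Tendsto (fun n : ℕ => 2 * Real.sqrt ((n : ℝ) ^ 2 * ((PP n).card : ℝ) ^ 4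
      / ((n - 5).choose 4 : ℝ) ^ 3)) atTop (𝓝 0) := by
    have h1 := (lim_choose 5 4).pow 3
    have h0 : Tendsto (fun n : ℕ => (1 : ℝ) / (n : ℝ)) atTop (𝓝 0) :=
      tendsto_one_div_atTop_nhds_zero_nat
    have h2 := ((lim_PP.pow 4).div h1 (by rw [hfac]; norm_num)).mul (h0.pow 2)
    norm_num at h2
    have h3 : Tendsto (fun n : ℕ => ((n : ℝ) ^ 2 * ((PP n).card : ℝ) ^ 4
      / ((n - 5).choose 4 : ℝ) ^ 3)) atTop (𝓝 0) := by
      refine h2.congr' ?_
      filter_upwards [eventually_ge_atTop 9] with n hn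
      have hn0 : (n : ℝ) ≠ 0 := by
        have : 0 < n := by omega
        positivity
      have hM0 : ((n - 5).choose 4 : ℝ) ≠ 0 := by
        have : 0 < (n - 5).choose 4 := Nat.choose_pos (by omega)
        positivity
      field_simp
    have h4 := ((Real.continuous_sqrt.tendsto 0).comp h3).const_mul 2
    rw [Real.sqrt_zero, mul_zero] at h4
    exact h4
  have l12 := l10.add l11
  rw [add_zero] at l12
  filter_upwards [l7.eventually_const_le (show (99 / 100 : ℝ) < 1 by norm_num),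
    l7b.eventually_const_le (show (0 : ℝ) < 1 by norm_num),
    l8.eventually_le_const (show (1 : ℝ) < 101 / 100 by norm_num),
    l9.eventually_le_const (show (2 : ℝ) < 20164 / 10000 by norm_num),
    l12.eventually_le_const (show (0 : ℝ) < 1 / 100 by norm_num),
    eventually_ge_atTop 12] with n g1 g2 g3 g4 g5 hn
  set P : ℝ := ((PP n).card : ℝ) with hP
  have hP0 : 0 < P := hPne n (by omega)
  set M : ℕ := (n - 2).choose 4 with hM
  set N : ℕ := (n - 4).choose 4 with hN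
  set N5 : ℕ := (n - 5).choose 4 with hN5
  set N6 : ℕ := (n - 6).choose 4 with hN6
  set b := bet (2 * M) with hb
  have hb0 : 0 ≤ b := bet_nonneg _
  set ρ : ℝ := (M : ℝ) / (N : ℝ) with hρ
  have hM1 : 1 ≤ M := Nat.choose_pos (by omega)
  have hN51 : 1 ≤ N5 := Nat.choose_pos (by omega)
  have hN61 : 1 ≤ N6 := Nat.choose_pos (by omega)
  have hMr : (0 : ℝ) < M := by exact_mod_cast hM1
  have hN5r : (0 : ℝ) < N5 := by exact_mod_cast hN51
  have hN6r : (0 : ℝ) < N6 := by exact_mod_cast hN61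
  have hc := Z_lower 4 n (c := b ^ 2 * (1 - ρ * (ρ - 1) / 2)) (by positivity)
    (fun p hp q hq hs => c_lower 4 n (by omega) rfl hp hq hs)
  rw [← hM, ← hN6, ← hN5, ← hb, ← hP] at hc
  refine le_trans ?_ hc
  -- the main quantities
  set x : ℝ := P * b with hx
  have hx0 : 0 ≤ x := by positivity
  have hx2 : x ≤ 71 / 50 := by
    have h1 : b ^ 2 * (3 * M + 1) ≤ 1 := bet_two_sq_le M
    have h2 : x ^ 2 ≤ P ^ 2 / (3 * M) := by
      rw [le_div_iff₀ (by positivity), hx]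
      nlinarith [sq_nonneg (P * b), sq_nonneg P, mul_le_mul_of_nonneg_left h1 (sq_nonneg P)]
    have h3 : x ^ 2 ≤ (71 / 50) ^ 2 := by
      refine h2.trans (g4.trans ?_)
      norm_num
    exact abs_le_of_sq_le_sq' h3 (by norm_num) |>.2
  have h6 : P ^ 3 * bet (2 * N6) ^ 3 ≤ ((M : ℝ) / N6) ^ 2 * x ^ 3 := by
    have hNM : N6 ≤ M := Nat.choose_le_choose 4 (by omega)
    have hNMr : (N6 : ℝ) ≤ M := by exact_mod_cast hNM
    set ρ6 : ℝ := (M : ℝ) / N6 with hρ6
    have hρ1 : 1 ≤ ρ6 := by rw [hρ6, one_le_div hN6r]; exact hNMr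
    have h3 := bet_ratio hNM
    have hb6 := bet_nonneg (2 * N6)
    have h4 : bet (2 * N6) ^ 2 ≤ b ^ 2 * ρ6 := by
      rw [hρ6, ← mul_div_assoc, le_div_iff₀ hN6r]
      exact h3
    have h5 : bet (2 * N6) ≤ b * ρ6 := by
      refine abs_le_of_sq_le_sq' ?_ (by positivity) |>.2
      refine h4.trans ?_
      rw [mul_pow]
      refine mul_le_mul_of_nonneg_left ?_ (by positivity)
      nlinarith
    have h7 : bet (2 * N6) ^ 3 ≤ (b ^ 2 * ρ6) * (b * ρ6) := by
      calc bet (2 * N6) ^ 3 = bet (2 * N6) ^ 2 * bet (2 * N6) := by ring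
        _ ≤ (b ^ 2 * ρ6) * (b * ρ6) := mul_le_mul h4 h5 hb6 (by positivity)
    calc P ^ 3 * bet (2 * N6) ^ 3 ≤ P ^ 3 * ((b ^ 2 * ρ6) * (b * ρ6)) :=
          mul_le_mul_of_nonneg_left h7 (by positivity)
      _ = ρ6 ^ 2 * x ^ 3 := by rw [hx]; ring
  have h8 : 3 * (P * (4 * n) * (16 * rr N5 ^ 2 + P * rr N5 ^ 3)) / 6 ≤
      32 * ((n : ℝ) * P / N5) + 2 * Real.sqrt ((n : ℝ) ^ 2 * P ^ 4 / (N5 : ℝ) ^ 3) := by
    have e1 : 3 * (P * (4 * n) * (16 * rr N5 ^ 2 + P * rr N5 ^ 3)) / 6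
        = 32 * (n * P * rr N5 ^ 2) + 2 * (n * P ^ 2 * rr N5 ^ 3) := by ring
    rw [e1]
    have hr := rr_nonneg N5
    have hr2 : rr N5 ^ 2 ≤ 1 / N5 := by
      rw [rr_sq]; exact one_div_le_one_div_of_le hN5r (by linarith)
    have e2 : n * P * rr N5 ^ 2 ≤ (n : ℝ) * P / N5 := by
      calc n * P * rr N5 ^ 2 ≤ n * P * (1 / N5) := mul_le_mul_of_nonneg_left hr2 (by positivity)
        _ = _ := by ring
    have e3 : n * P ^ 2 * rr N5 ^ 3 ≤ Real.sqrt ((n : ℝ) ^ 2 * P ^ 4 / (N5 : ℝ) ^ 3) := by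
      apply Real.le_sqrt_of_sq_le
      have e4 : (n * P ^ 2 * rr N5 ^ 3) ^ 2 = (n : ℝ) ^ 2 * P ^ 4 * (rr N5 ^ 2) ^ 3 := by ring
      rw [e4]
      calc (n : ℝ) ^ 2 * P ^ 4 * (rr N5 ^ 2) ^ 3 ≤ (n : ℝ) ^ 2 * P ^ 4 * (1 / N5) ^ 3 :=
            mul_le_mul_of_nonneg_left (pow_le_pow_left₀ (by positivity) hr2 3) (by positivity)
        _ = _ := by field_simp
    linarith
  have h9 := final_ineq hx0 hx2 g1 g3 (h8.trans g5)
  refine h9.trans ?_
  have e5 : (1 - 4 * ((n : ℝ) / P)) * (1 - ρ * (ρ - 1) / 2) * x ^ 2 / 2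
      = P * (P - 4 * n) * (b ^ 2 * (1 - ρ * (ρ - 1) / 2)) / 2 := by
    rw [hx]
    field_simp
  rw [e5]
  linarith

end Pool.Agent.U140.IR
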