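import Pool.Agent.U140.IR.Pairs

/-! Lower bound for the probability that two disjoint pairs of vertices have equal degrees. -/

set_option autoImplicit false
set_option linter.unusedSectionVars false

namespace Pool.Agent.U140.IR

open Finset Filter Topology

open Classical in
lemma av_card_ge {ι : Type*} [DecidableEq ι] {D : Finset ι} {N : ℕ} (hN : 1 ≤ N)
    (hD : D.card = 2 * N) (a b : ℕ) :
    bet (2 * N) * (1 - ((a : ℝ) - b) ^ 2 / N) ≤
      av D (fun J => if J.card + a = N + b then 1 else 0) := by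
  have hNr : (0 : ℝ) < N := by exact_mod_cast hN
  have hav : 0 ≤ av D (fun J : Finset ι => if J.card + a = N + b then (1 : ℝ) else 0) :=
    av_nonneg fun J _ => by split_ifs <;> norm_num
  have key : ∀ t : ℕ, bet (2 * N) * (1 - (t : ℝ) ^ 2 / N)
      ≤ ((2 * N).choose (N + t) : ℝ) / 2 ^ (2 * N) := by
    intro t
    rw [bet_two, pow_mul]
    norm_num
    rw [div_mul_eq_mul_div]
    exact div_le_div_of_nonneg_right (choose_near N hN t) (by positivity)
  rcases Nat.le_total a b with h | h
  · obtain ⟨t, rfl⟩ := Nat.exists_eq_add_of_le h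
    rw [av_card_eq D a (N + (a + t)) (N + t) (by ring), hD]
    have e : ((a : ℝ) - ((a + t : ℕ) : ℝ)) ^ 2 = (t : ℝ) ^ 2 := by push_cast; ring
    rw [e]
    exact key t
  · obtain ⟨t, rfl⟩ := Nat.exists_eq_add_of_le h
    have e : (((b + t : ℕ) : ℝ) - (b : ℝ)) ^ 2 = (t : ℝ) ^ 2 := by push_cast; ring
    rw [e]
    rcases Nat.lt_or_ge N t with h2 | h2
    · refine le_trans ?_ hav
      refine mul_nonpos_of_nonneg_of_nonpos (bet_nonneg _) ?_
      have h3 : (N : ℝ) + 1 ≤ t := by exact_mod_cast h2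
      have h4 : (N : ℝ) ≤ (t : ℝ) ^ 2 := by nlinarith
      have h5 : 1 ≤ (t : ℝ) ^ 2 / N := by rwa [one_le_div hNr]
      linarith
    · rw [av_card_eq D (b + t) (N + b) (N - t) (by omega), hD]
      have e2 : (2 * N).choose (N - t) = (2 * N).choose (N + t) := by
        rw [← Nat.choose_symm (by omega : N - t ≤ 2 * N)]
        congr 1; omega
      rw [e2]
      exact key t

variable {n : ℕ}

lemma deg_real (H : Finset (Finset (Fin n))) (v : Fin n) :
    (deg H v : ℝ) = ∑ e ∈ H, (if v ∈ e then (1 : ℝ) else 0) := by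
  unfold deg
  rw [sum_boole]

/-- second moment of the difference of two degrees outside the private sets -/
lemma av_T (k : ℕ) {S : Finset (Fin n)} {u v : Fin n} (hu : u ∈ S) (hv : v ∈ S) (huv : u ≠ v) :
    av (EE n (k + 1) \ (Priv (k + 1) S u ∪ Priv (k + 1) S v))
      (fun K => ((deg K u : ℝ) - deg K v) ^ 2) =
      (((n - 2).choose k : ℝ) - ((n - S.card).choose k : ℝ)) / 2 := by
  classical
  set D := Priv (k + 1) S u ∪ Priv (k + 1) S v with hD
  set E' := EE n (k + 1) \ D with hE'
  set s : Finset (Fin n) → ℝ := fun e => (if u ∈ e then 1 else 0) - (if v ∈ e then 1 else 0)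
    with hs
  have h1 : ∀ K : Finset (Finset (Fin n)), ((deg K u : ℝ) - deg K v) ^ 2
      = (∑ e ∈ K, s e + 0) ^ 2 := by
    intro K
    rw [deg_real, deg_real, hs, sum_sub_distrib, add_zero]
  rw [av_congr (fun K _ => h1 K), av_sq]
  set S2 : Finset (Fin n) := {u, v} with hS2
  have hS2c : S2.card = 2 := card_pair huv
  have hu2 : u ∈ S2 := by simp [hS2]
  have hv2 : v ∈ S2 := by simp [hS2]
  have hS2S : S2 ⊆ S := by
    intro x hx
    rw [hS2, mem_insert, mem_singleton] at hx
    rcases hx with rfl | rfl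
    · exact hu
    · exact hv
  -- the edges containing x and not y outside D
  have hcount : ∀ x y : Fin n, (x = u ∧ y = v) ∨ (x = v ∧ y = u) →
      ((E'.filter (fun e => x ∈ e ∧ y ∉ e)).card : ℝ)
        = ((n - 2).choose k : ℝ) - ((n - S.card).choose k : ℝ) := by
    intro x y hxy
    have hxS : x ∈ S := by rcases hxy with ⟨rfl, _⟩ | ⟨rfl, _⟩ <;> assumption
    have hyS : y ∈ S := by rcases hxy with ⟨_, rfl⟩ | ⟨_, rfl⟩ <;> assumption
    have hx2 : x ∈ S2 := by rcases hxy with ⟨rfl, _⟩ | ⟨rfl, _⟩ <;> assumption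
    have hxy' : x ≠ y := by
      rcases hxy with ⟨rfl, rfl⟩ | ⟨rfl, rfl⟩
      · exact huv
      · exact huv.symm
    have e1 : E'.filter (fun e => x ∈ e ∧ y ∉ e) = Priv (k + 1) S2 x \ Priv (k + 1) S x := by
      ext e
      rw [mem_filter, hE', Finset.mem_sdiff, Finset.mem_sdiff]
      constructor
      · rintro ⟨⟨h2, h3⟩, h4, h5⟩
        refine ⟨mem_filter.mpr ⟨h2, h4, ?_⟩, ?_⟩
        · intro w hw hwx
          rw [hS2, mem_insert, mem_singleton] at hw
          have : w = y := by
            rcases hxy with ⟨rfl, rfl⟩ | ⟨rfl, rfl⟩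
            · exact hw.resolve_left hwx
            · exact hw.resolve_right hwx
          rw [this]; exact h5
        · intro h6
          apply h3
          rw [hD, mem_union]
          rcases hxy with ⟨rfl, rfl⟩ | ⟨rfl, rfl⟩
          · exact Or.inl h6
          · exact Or.inr h6
      · rintro ⟨h2, h3⟩
        have h4 := mem_filter.mp h2
        have hy2 : y ∈ S2 := by rcases hxy with ⟨_, rfl⟩ | ⟨_, rfl⟩ <;> assumption
        have h5 : y ∉ e := h4.2.2 y hy2 hxy'.symm
        refine ⟨⟨h4.1, ?_⟩, h4.2.1, h5⟩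
        intro h6
        rw [hD, mem_union] at h6
        rcases hxy with ⟨rfl, rfl⟩ | ⟨rfl, rfl⟩
        · rcases h6 with h6 | h6
          · exact h3 h6
          · exact h5 (Priv_mem h6)
        · rcases h6 with h6 | h6
          · exact h5 (Priv_mem h6)
          · exact h3 h6
    have e2 : Priv (k + 1) S x ⊆ Priv (k + 1) S2 x := by
      intro e he
      have h4 := mem_filter.mp he
      exact mem_filter.mpr ⟨h4.1, h4.2.1, fun w hw hwx => h4.2.2 w (hS2S hw) hwx⟩
    rw [e1, card_sdiff_of_subset e2, Nat.cast_sub (card_le_card e2), card_Priv k hx2,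
      card_Priv k hxS, hS2c]
  have hsum1 : ∑ e ∈ E', s e = 0 := by
    have : ∀ e ∈ E', s e = (if (u ∈ e ∧ v ∉ e) then 1 else 0) - (if (v ∈ e ∧ u ∉ e) then 1 else 0) := by
      intro e _
      rw [hs]
      by_cases h1 : u ∈ e <;> by_cases h2 : v ∈ e <;> simp [h1, h2]
    rw [sum_congr rfl this, sum_sub_distrib, sum_boole, sum_boole,
      hcount u v (Or.inl ⟨rfl, rfl⟩), hcount v u (Or.inr ⟨rfl, rfl⟩), sub_self]
  have hsum2 : ∑ e ∈ E', s e ^ 2
      = 2 * (((n - 2).choose k : ℝ) - ((n - S.card).choose k : ℝ)) := by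
    have : ∀ e ∈ E', s e ^ 2
        = (if (u ∈ e ∧ v ∉ e) then 1 else 0) + (if (v ∈ e ∧ u ∉ e) then 1 else 0) := by
      intro e _
      rw [hs]
      by_cases h1 : u ∈ e <;> by_cases h2 : v ∈ e <;> simp [h1, h2]
    rw [sum_congr rfl this, sum_add_distrib, sum_boole, sum_boole,
      hcount u v (Or.inl ⟨rfl, rfl⟩), hcount v u (Or.inr ⟨rfl, rfl⟩)]
    ring
  rw [hsum1, hsum2]
  ring

/-- two disjoint pairs, lower bound -/
lemma av_II_ge (k : ℕ) {u v w z : Fin n} (hN : 1 ≤ (n - 4).choose k) (huv : u ≠ v) (hwz : w ≠ z)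
    (huw : u ≠ w) (huz : u ≠ z) (hvw : v ≠ w) (hvz : v ≠ z) :
    bet (2 * (n - 4).choose k) * (bet (2 * (n - 2).choose k) - bet (2 * (n - 4).choose k) *
      ((((n - 2).choose k : ℝ) - ((n - 4).choose k : ℝ)) / (2 * ((n - 4).choose k : ℝ)))) ≤
    av (EE n (k + 1)) (fun H => I w z H * I u v H) := by
  classical
  set S : Finset (Fin n) := {u, v, w, z} with hS
  have hSc : S.card = 4 := by
    rw [hS, card_insert_of_notMem, card_insert_of_notMem, card_pair hwz]
    · simp [hvw, hvz]
    · simp [huv, huw, huz]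
  have hu : u ∈ S := by simp [hS]
  have hv : v ∈ S := by simp [hS]
  have hw : w ∈ S := by simp [hS]
  have hz : z ∈ S := by simp [hS]
  set N := (n - 4).choose k with hNdef
  have hNr : (0 : ℝ) < N := by exact_mod_cast hN
  set M := (n - 2).choose k with hM
  set D := Priv (k + 1) S u ∪ Priv (k + 1) S v with hD
  set D' := Priv (k + 1) S w ∪ Priv (k + 1) S z with hD'
  set E := EE n (k + 1) with hE
  have hDE : D ⊆ E := union_subset (Priv_subset _ _ _) (Priv_subset _ _ _)
  have hD'E : D' ⊆ E \ D := by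
    rw [subset_sdiff]
    refine ⟨union_subset (Priv_subset _ _ _) (Priv_subset _ _ _), ?_⟩
    rw [hD, hD', disjoint_union_left, disjoint_union_right, disjoint_union_right]
    exact ⟨⟨Priv_disjoint _ hw hu huw.symm, Priv_disjoint _ hw hv hvw.symm⟩,
      ⟨Priv_disjoint _ hz hu huz.symm, Priv_disjoint _ hz hv hvz.symm⟩⟩
  have hIwz : ∀ H, I w z (H \ D) = I w z H :=
    I_sdiff (fun e he => by
      rcases mem_union.mp he with h | h
      · exact Priv_notMem hw huw.symm h
      · exact Priv_notMem hw hvw.symm h) (fun e he => by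
      rcases mem_union.mp he with h | h
      · exact Priv_notMem hz huz.symm h
      · exact Priv_notMem hz hvz.symm h)
  have hDc : D.card = 2 * N := by
    rw [hD, card_union_of_disjoint (Priv_disjoint _ hu hv huv), card_Priv k hu, card_Priv k hv, hSc]
    ring
  have hvc : (Priv (k + 1) S v).card = N := by rw [card_Priv k hv, hSc]
  rw [av_peel_eq hDE hIwz]
  set T2 : Finset (Finset (Fin n)) → ℝ := fun K => ((deg K u : ℝ) - deg K v) ^ 2 with hT2
  have h1 : av (E \ D) (fun K => I w z K * (bet (2 * N) * (1 - T2 K / N))) ≤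
      av (E \ D) (fun K => I w z K * av D (fun J => I u v (J ∪ K))) := by
    refine av_mono fun K hK => ?_
    refine mul_le_mul_of_nonneg_left ?_ (I_nonneg _ _ _)
    rw [hD, two_priv hu hv huv hK, ← hD, hvc]
    exact (av_card_ge hN hDc (deg K u) (deg K v)).trans (le_of_eq (av_congr fun J _ => by congr))
  refine le_trans ?_ h1
  have h2 : av (E \ D) (fun K => I w z K * (bet (2 * N) * (1 - T2 K / N)))
      = bet (2 * N) * (av (E \ D) (I w z) - (1 / N) * av (E \ D) (fun K => T2 K * I w z K)) := by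
    rw [← av_mul, ← av_sub, ← av_mul]
    refine av_congr fun K _ => ?_
    field_simp
  rw [h2, ← av_drop hDE hIwz, av_I k hwz, ← hM]
  refine mul_le_mul_of_nonneg_left ?_ (bet_nonneg _)
  have h3 := peel_two (k := k) hw hz hwz (E := E \ D) hD'E (g := T2)
    (fun H => by rw [hT2]; positivity)
    (fun H => by
      rw [hT2]
      simp only
      rw [deg_sdiff, deg_sdiff]
      · intro e he
        rcases mem_union.mp he with h | h
        · exact Priv_notMem hv hvw h
        · exact Priv_notMem hv hvz h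
      · intro e he
        rcases mem_union.mp he with h | h
        · exact Priv_notMem hu huw h
        · exact Priv_notMem hu huz h)
  have h4 := av_T k hu hv huv
  rw [hSc, ← hD, ← hE, ← hM, ← hNdef] at h4
  rw [hSc, ← hNdef] at h3
  rw [show av (E \ D) T2 = ((M : ℝ) - N) / 2 from h4] at h3
  have h5 : (1 / (N : ℝ)) * av (E \ D) (fun K => T2 K * I w z K)
      ≤ bet (2 * N) * (((M : ℝ) - N) / (2 * N)) := by
    calc (1 / (N : ℝ)) * av (E \ D) (fun K => T2 K * I w z K)
        ≤ (1 / (N : ℝ)) * (bet (2 * N) * (((M : ℝ) - N) / 2)) :=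
          mul_le_mul_of_nonneg_left h3 (by positivity)
      _ = _ := by field_simp
  linarith

end Pool.Agent.U140.IR
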