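import Pool.Agent.U140.IR.Deg

/-! Pairs of vertices, and limits of binomial coefficients. -/

set_option autoImplicit false
set_option linter.unusedSectionVars false

namespace Pool.Agent.U140.IR

open Finset Filter Topology

/-- all pairs `u < v` -/
def PP (n : ℕ) : Finset (Fin n × Fin n) := univ.filter (fun p => p.1 < p.2)

lemma mem_PP {n : ℕ} {p : Fin n × Fin n} : p ∈ PP n ↔ p.1 < p.2 := by simp [PP]

lemma card_PP (n : ℕ) : 2 * (PP n).card + n = n ^ 2 := by
  have h1 : ((univ : Finset (Fin n)) ×ˢ (univ : Finset (Fin n))) =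
      (PP n ∪ (PP n).image Prod.swap) ∪ univ.image (fun x : Fin n => (x, x)) := by
    ext p
    simp only [mem_product, mem_univ, true_and, mem_union, mem_image, mem_PP, true_iff,
      Prod.exists]
    rcases lt_trichotomy p.1 p.2 with h | h | h
    · exact Or.inl (Or.inl h)
    · exact Or.inr ⟨p.1, by ext <;> simp [h]⟩
    · exact Or.inl (Or.inr ⟨p.2, p.1, h, by simp⟩)
  have h2 : Disjoint (PP n) ((PP n).image Prod.swap) := by
    rw [disjoint_left]
    intro p hp hq
    rw [mem_image] at hq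
    obtain ⟨q, hq, rfl⟩ := hq
    rw [mem_PP] at hp hq
    exact absurd hp (not_lt.mpr hq.le)
  have h3 : Disjoint (PP n ∪ (PP n).image Prod.swap) (univ.image (fun x : Fin n => (x, x))) := by
    rw [disjoint_left]
    intro p hp hq
    rw [mem_image] at hq
    obtain ⟨x, _, rfl⟩ := hq
    rcases mem_union.mp hp with h | h
    · rw [mem_PP] at h; exact lt_irrefl _ h
    · rw [mem_image] at h
      obtain ⟨q, hq, he⟩ := h
      rw [mem_PP] at hq
      have e1 : q.2 = x := congrArg Prod.fst he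
      have e2 : q.1 = x := congrArg Prod.snd he
      rw [e1, e2] at hq
      exact lt_irrefl _ hq
  have h4 : ((univ : Finset (Fin n)) ×ˢ (univ : Finset (Fin n))).card = n ^ 2 := by
    rw [card_product, card_univ, Fintype.card_fin, sq]
  rw [← h4, h1, card_union_of_disjoint h3, card_union_of_disjoint h2,
    card_image_of_injective _ Prod.swap_injective, card_image_of_injective, card_univ,
    Fintype.card_fin]
  · ring
  · intro x y h
    exact congrArg Prod.fst h

lemma card_PP_real (n : ℕ) : ((PP n).card : ℝ) = ((n : ℝ) ^ 2 - n) / 2 := by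
  have h := card_PP n
  have h2 : (2 * ((PP n).card : ℝ) + n) = (n : ℝ) ^ 2 := by exact_mod_cast h
  linarith

/-- two pairs share a vertex -/
def share {n : ℕ} (p q : Fin n × Fin n) : Prop :=
  p.1 = q.1 ∨ p.1 = q.2 ∨ p.2 = q.1 ∨ p.2 = q.2

instance {n : ℕ} (p q : Fin n × Fin n) : Decidable (share p q) := by
  unfold share; infer_instance

lemma card_share {n : ℕ} (p : Fin n × Fin n) : ((PP n).filter (share p)).card ≤ 4 * n := by
  have h1 : (PP n).filter (share p) ⊆ ((univ.image (fun y : Fin n => (p.1, y))) ∪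
      (univ.image (fun y : Fin n => (y, p.1)))) ∪ ((univ.image (fun y : Fin n => (p.2, y))) ∪
      (univ.image (fun y : Fin n => (y, p.2)))) := by
    intro q hq
    rw [mem_filter] at hq
    simp only [mem_union, mem_image, mem_univ, true_and]
    rcases hq.2 with h | h | h | h
    · exact Or.inl (Or.inl ⟨q.2, by rw [h]⟩)
    · exact Or.inl (Or.inr ⟨q.1, by rw [h]⟩)
    · exact Or.inr (Or.inl ⟨q.2, by rw [h]⟩)
    · exact Or.inr (Or.inr ⟨q.1, by rw [h]⟩)
  have h2 : ∀ f : Fin n → Fin n × Fin n, (univ.image f).card ≤ n := by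
    intro f
    refine card_image_le.trans ?_
    rw [card_univ, Fintype.card_fin]
  refine (card_le_card h1).trans ?_
  refine (card_union_le _ _).trans ?_
  have h3 := card_union_le (univ.image (fun y : Fin n => (p.1, y)))
    (univ.image (fun y : Fin n => (y, p.1)))
  have h4 := card_union_le (univ.image (fun y : Fin n => (p.2, y)))
    (univ.image (fun y : Fin n => (y, p.2)))
  have := h2 (fun y : Fin n => (p.1, y))
  have := h2 (fun y : Fin n => (y, p.1))
  have := h2 (fun y : Fin n => (p.2, y))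
  have := h2 (fun y : Fin n => (y, p.2))
  omega

/-- the indicator of a pair of equal degrees -/
noncomputable def Ip {n : ℕ} (p : Fin n × Fin n) (H : Finset (Finset (Fin n))) : ℝ := I p.1 p.2 H

lemma Ip_nonneg {n : ℕ} (p : Fin n × Fin n) (H : Finset (Finset (Fin n))) : 0 ≤ Ip p H :=
  I_nonneg _ _ _

lemma Ip_le_one {n : ℕ} (p : Fin n × Fin n) (H : Finset (Finset (Fin n))) : Ip p H ≤ 1 :=
  I_le_one _ _ _

/-- the structure of two distinct pairs which share a vertex -/
lemma share_cherry {n : ℕ} {p q : Fin n × Fin n} (hp : p ∈ PP n) (hq : q ∈ PP n) (hne : p ≠ q)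
    (hs : share p q) : ∃ a b c : Fin n, a ≠ b ∧ a ≠ c ∧ b ≠ c ∧
      (∀ H, Ip p H = I b a H) ∧ (∀ H, Ip q H = I c a H) := by
  rw [mem_PP] at hp hq
  unfold Ip
  rcases hs with h | h | h | h
  · refine ⟨p.1, p.2, q.2, hp.ne, ?_, ?_, fun H => I_comm _ _ _, fun H => ?_⟩
    · rw [h]; exact hq.ne
    · intro h2; exact hne (Prod.ext h h2)
    · rw [h]; exact I_comm _ _ _
  · refine ⟨p.1, p.2, q.1, hp.ne, ?_, ?_, fun H => I_comm _ _ _, fun H => ?_⟩
    · rw [h]; exact hq.ne'
    · intro h2
      have : q.1 < q.1 := hq.trans (by rw [← h, ← h2]; exact hp)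
      exact lt_irrefl _ this
    · rw [h]
  · refine ⟨p.2, p.1, q.2, hp.ne', ?_, ?_, fun H => rfl, fun H => ?_⟩
    · rw [h]; exact hq.ne
    · intro h2
      have : p.1 < p.1 := hp.trans (by rw [h, h2]; exact hq)
      exact lt_irrefl _ this
    · rw [h]; exact I_comm _ _ _
  · refine ⟨p.2, p.1, q.1, hp.ne', ?_, ?_, fun H => rfl, fun H => ?_⟩
    · rw [h]; exact hq.ne'
    · intro h2; exact hne (Prod.ext h2 h)
    · rw [h]

lemma av_share (k : ℕ) {n : ℕ} {p q : Fin n × Fin n} (hp : p ∈ PP n) (hq : q ∈ PP n) (hne : p ≠ q)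
    (hs : share p q) : av (EE n (k + 1)) (fun H => Ip p H * Ip q H) ≤ rr ((n - 3).choose k) ^ 2 := by
  obtain ⟨a, b, c, h1, h2, h3, h4, h5⟩ := share_cherry hp hq hne hs
  simp only [h4, h5]
  exact av_cherry k h1 h2 h3

lemma av_disj (k : ℕ) {n : ℕ} {p q : Fin n × Fin n} (hp : p ∈ PP n) (hq : q ∈ PP n)
    (hs : ¬ share p q) : av (EE n (k + 1)) (fun H => Ip p H * Ip q H) ≤
      bet (2 * (n - 4).choose k) ^ 2 := by
  rw [mem_PP] at hp hq
  unfold share at hs
  push Not at hs
  exact av_II_le k hq.ne hp.ne (Ne.symm hs.1) (Ne.symm hs.2.2.1) (Ne.symm hs.2.1)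
    (Ne.symm hs.2.2.2)

lemma av_Ip (k : ℕ) {n : ℕ} {p : Fin n × Fin n} (hp : p ∈ PP n) :
    av (EE n (k + 1)) (Ip p) = bet (2 * (n - 2).choose k) := by
  rw [mem_PP] at hp
  exact av_I k hp.ne

/-! ### limits -/

lemma lim_choose (a k : ℕ) :
    Tendsto (fun n : ℕ => (((n - a).choose k : ℕ) : ℝ) / (n : ℝ) ^ k) atTop
      (𝓝 (1 / (k.factorial : ℝ))) := by
  have h1 := isEquivalent_choose k
  rw [Asymptotics.isEquivalent_iff_tendsto_one] at h1
  · have h2 : Tendsto (fun n : ℕ => n - a) atTop atTop := tendsto_sub_atTop_nat a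
    have h3 := h1.comp h2
    have h4 : Tendsto (fun n : ℕ => (((n - a : ℕ) : ℝ) / (n : ℝ)) ^ k) atTop (𝓝 (1 ^ k)) := by
      refine Tendsto.pow ?_ k
      have h5 : Tendsto (fun n : ℕ => 1 - (a : ℝ) / (n : ℝ)) atTop (𝓝 (1 - 0)) :=
        tendsto_const_nhds.sub (tendsto_const_div_atTop_nhds_zero_nat (a : ℝ))
      rw [sub_zero] at h5
      refine h5.congr' ?_
      filter_upwards [eventually_ge_atTop (a + 1)] with n hn
      have hn0 : (n : ℝ) ≠ 0 := by
        have : 0 < n := by omega
        positivity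
      rw [Nat.cast_sub (by omega)]
      field_simp
    rw [one_pow] at h4
    have h6 := (h3.mul h4).mul_const (1 / (k.factorial : ℝ))
    simp only [one_mul] at h6
    refine h6.congr' ?_
    filter_upwards [eventually_ge_atTop (a + 1)] with n hn
    have hn0 : (n : ℝ) ≠ 0 := by
      have : 0 < n := by omega
      positivity
    have hna : ((n - a : ℕ) : ℝ) ≠ 0 := by
      have : 0 < n - a := by omega
      positivity
    have hk : (k.factorial : ℝ) ≠ 0 := by exact_mod_cast k.factorial_ne_zero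
    simp only [Function.comp, Pi.div_apply]
    rw [div_pow]
    field_simp
  · filter_upwards [eventually_ge_atTop 1] with n hn
    have hn0 : (0 : ℝ) < n := by exact_mod_cast hn
    positivity

lemma lim_ratio (a b k : ℕ) :
    Tendsto (fun n : ℕ => (((n - a).choose k : ℕ) : ℝ) / (((n - b).choose k : ℕ) : ℝ)) atTop
      (𝓝 1) := by
  have hk : (1 / (k.factorial : ℝ)) ≠ 0 := by
    have : (k.factorial : ℝ) ≠ 0 := by exact_mod_cast k.factorial_ne_zero
    positivity
  have h := (lim_choose a k).div (lim_choose b k) hk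
  rw [div_self hk] at h
  refine h.congr' ?_
  filter_upwards [eventually_ge_atTop 1] with n hn
  have hn0 : (n : ℝ) ^ k ≠ 0 := by
    have : (0 : ℝ) < n := by exact_mod_cast hn
    positivity
  simp only [Pi.div_apply]
  rw [div_div_div_cancel_right₀ hn0]

lemma lim_PP : Tendsto (fun n : ℕ => ((PP n).card : ℝ) / (n : ℝ) ^ 2) atTop (𝓝 (1 / 2)) := by
  have h5 : Tendsto (fun n : ℕ => 1 / 2 - (1 / 2 : ℝ) / (n : ℝ)) atTop (𝓝 (1 / 2 - 0)) :=
    tendsto_const_nhds.sub (tendsto_const_div_atTop_nhds_zero_nat (1 / 2 : ℝ))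
  rw [sub_zero] at h5
  refine h5.congr' ?_
  filter_upwards [eventually_ge_atTop 1] with n hn
  have hn0 : (n : ℝ) ≠ 0 := by
    have : 0 < n := by omega
    positivity
  rw [card_PP_real]
  field_simp

end Pool.Agent.U140.IR
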