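import Pool.Agent.U140.IR.Fin5

/-!
Not a hand-in. The statement is contained, as far as we remember, in P. Balister, B. Bollobas, J. Lehel,
M. Morayne, Random hypergraph irregularization, SIAM J. Discrete Math. 30 (2016); the proof is kept as a helper.
-/

set_option autoImplicit false
open Classical

namespace Pool.Agent.U140.IR.W09825

/-- There is c > 0 such that for all large n, at least a c fraction of the 5-uniform hypergraphs on n labeled vertices have pairwise distinct vertex degrees. -/
theorem main :
    ∃ c : ℝ, 0 < c ∧ ∃ N : ℕ, ∀ n : ℕ, N ≤ n →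
      c ≤ ((((Finset.univ : Finset (Fin n)).powersetCard 5).powerset.filter
              (fun H => Function.Injective
                (fun v : Fin n => (H.filter (fun e => v ∈ e)).card))).card : ℝ)
            / (2 : ℝ) ^ (n.choose 5) := by
  obtain ⟨N, hN⟩ := Pool.Agent.U140.IR.main5
  refine ⟨1 / 20, by norm_num, N, fun n hn => (hN n hn).trans (le_of_eq ?_)⟩
  have h := Pool.Agent.U140.IR.av_ind (Pool.Agent.U140.IR.EE n 5)
    (fun H => Function.Injective (Pool.Agent.U140.IR.deg H))
  have hc : (Pool.Agent.U140.IR.EE n 5).card = n.choose 5 := by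
    rw [Finset.card_powersetCard, Finset.card_univ, Fintype.card_fin]
  rw [hc] at h
  have hZ : Pool.Agent.U140.IR.av (Pool.Agent.U140.IR.EE n 5) Pool.Agent.U140.IR.Z
      = Pool.Agent.U140.IR.av (Pool.Agent.U140.IR.EE n 5)
        (fun H => @ite ℝ (Function.Injective (Pool.Agent.U140.IR.deg H))
          (Classical.propDecidable _) 1 0) := by
    refine Pool.Agent.U140.IR.av_congr fun H _ => ?_
    by_cases hh : Function.Injective (Pool.Agent.U140.IR.deg H)
    · rw [Pool.Agent.U140.IR.Z, if_pos hh, if_pos hh]
    · rw [Pool.Agent.U140.IR.Z, if_neg hh, if_neg hh]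
  refine hZ.trans (h.trans ?_)
  congr!

end Pool.Agent.U140.IR.W09825
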