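import Pool.Agent.U140.IR.Sec

/-!
Not a hand-in. The statement is contained, as far as we remember, in P. Balister, B. Bollobas, J. Lehel,
M. Morayne, Random hypergraph irregularization, SIAM J. Discrete Math. 30 (2016); the proof is kept as a helper.
-/

set_option autoImplicit false

namespace Pool.Agent.U140.IR.W11127

/-- For k = 3 and k = 4: among all k-uniform hypergraphs on n labelled vertices, the fraction having two distinct vertices of equal degree tends to 1 as n → ∞. -/
theorem main :
    ∀ k : ℕ, (k = 3 ∨ k = 4) →
      Filter.Tendsto
        (fun n : ℕ =>
          ((((Finset.univ : Finset (Fin n)).powersetCard k).powerset.filter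
              (fun H => ∃ v w : Fin n, v ≠ w ∧
                (H.filter (fun e => v ∈ e)).card = (H.filter (fun e => w ∈ e)).card)).card : ℝ)
            / ((((Finset.univ : Finset (Fin n)).powersetCard k).powerset.card : ℝ)))
        Filter.atTop (nhds 1) := by
  intro k hk
  refine (Pool.Agent.U140.IR.main34 k hk).congr fun n => ?_
  congr!

end Pool.Agent.U140.IR.W11127
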